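import Mathlib

namespace Pool.Agent.H.MP_b466f1_co

def arcs : List (ℕ × ℕ) := [(0,4),(0,9),(0,10),(1,0),(1,2),(1,3),(1,6),(2,0),(2,5),(2,10),(3,0),
  (3,8),(3,9),(4,1),(4,2),(4,6),(4,8),(5,1),(5,3),(5,6),(5,10),(6,7),(7,1),(7,4),(7,5),(7,9),
  (7,10),(8,2),(8,5),(8,9),(9,1),(9,4),(9,5),(9,6),(10,3),(10,4),(10,6),(10,8)]

inductive Tr
  | L : List (ℕ × ℕ × ℕ × ℕ) → Tr
  | V : ℕ → Tr → Tr → Tr → Tr
  | D : ℕ → ℕ → Tr → Tr → Tr

def fm (ty a b : ℕ) : List (ℤ × ℕ) :=
  if ty = 1 then [(-1, a), (1, 11)]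
  else if ty = 2 then [(1, b), (-1, a)]
  else if ty = 3 then [(1, b), (2, a), (-1, 11)]
  else if ty = 4 then [(-2, b), (-1, a), (2, 11)]
  else if ty = 5 then [(-1, a), (-2, b), (1, 11)]
  else [(2, a), (1, b), (-2, 11)]

def ev (x : ℕ → ℤ) (l : List (ℤ × ℕ)) : ℤ := (l.map fun p => p.1 * x p.2).sum

def co (l : List (ℤ × ℕ)) (v : ℕ) : ℤ := (l.map fun p => if p.2 = v then p.1 else 0).sum

def isArc (a b : ℕ) : Bool := arcs.contains (a, b)

def valid (cl : ℕ → ℕ) (Fs : List (ℕ × ℕ × ℕ)) (ty a b : ℕ) : Bool :=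
  if ty = 1 then decide (a < 11)
  else if ty = 2 then isArc a b && decide (cl a < 3) && decide (cl a = cl b)
  else if ty = 3 ∨ ty = 4 then isArc a b && decide (cl b < 3) && decide (cl a = (cl b + 1) % 3)
  else Fs.contains (ty, a, b)

def comb (ts : List (ℕ × ℕ × ℕ × ℕ)) : List (ℤ × ℕ) :=
  ts.flatMap fun t => (fm t.1 t.2.1 t.2.2.1).map fun p => ((t.2.2.2 : ℤ) * p.1, p.2)

def chk : Tr → (ℕ → ℕ) → List (ℕ × ℕ × ℕ) → Bool
  | .L ts, cl, Fs => !ts.isEmpty &&
      ts.all (fun t => valid cl Fs t.1 t.2.1 t.2.2.1 && decide (0 < t.2.2.2)) &&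
      (comb ts).all (fun p => decide (p.2 < 12)) &&
      (List.range 12).all (fun v => decide (co (comb ts) v ≤ 0))
  | .V a t0 t1 t2, cl, Fs => decide (a < 11) &&
      chk t0 (fun v => if v = a then 0 else cl v) Fs &&
      chk t1 (fun v => if v = a then 1 else cl v) Fs &&
      chk t2 (fun v => if v = a then 2 else cl v) Fs
  | .D a b t1 t2, cl, Fs => isArc a b && decide (cl a < 3) && decide (cl b = (cl a + 1) % 3) &&
      chk t1 cl ((5, a, b) :: Fs) && chk t2 cl ((6, a, b) :: Fs)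

def Rel (i : ℕ) (s : ℤ) (j : ℕ) (t : ℤ) (M : ℤ) : Prop :=
  (i = j ∧ s < t) ∨ (j = (i + 1) % 3 ∧ (s + 2 * t < M ∨ 2 * M < 2 * s + t)) ∨
    (i = (j + 1) % 3 ∧ M < t + 2 * s ∧ 2 * t + s < 2 * M)

lemma ev_eq (x : ℕ → ℤ) (l : List (ℤ × ℕ)) (h : ∀ p ∈ l, p.2 < 12) :
    ev x l = ∑ v ∈ Finset.range 12, co l v * x v := by
  induction l with
  | nil => simp [ev, co]
  | cons p l ih =>
    have h1 := ih (fun q hq => h q (List.mem_cons_of_mem _ hq))
    have hp := h p (List.mem_cons_self ..)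
    have e1 : ev x (p :: l) = p.1 * x p.2 + ev x l := by simp [ev]
    have e2 : ∀ v, co (p :: l) v = (if p.2 = v then p.1 else 0) + co l v := by
      intro v; simp [co]
    rw [e1, h1]
    simp only [e2, add_mul, Finset.sum_add_distrib, ite_mul, zero_mul]
    rw [Finset.sum_ite_eq]
    simp [hp]

lemma ev_comb (x : ℕ → ℤ) (ts : List (ℕ × ℕ × ℕ × ℕ))
    (h : ∀ t ∈ ts, 0 < ev x (fm t.1 t.2.1 t.2.2.1) ∧ 0 < t.2.2.2) :
    0 ≤ ev x (comb ts) ∧ (ts ≠ [] → 0 < ev x (comb ts)) := by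
  induction ts with
  | nil => simp [ev, comb]
  | cons t ts ih =>
    have h1 := (ih (fun q hq => h q (List.mem_cons_of_mem _ hq))).1
    have ht := h t (List.mem_cons_self ..)
    have sc : ∀ (c : ℤ) (l : List (ℤ × ℕ)), ev x (l.map fun p => (c * p.1, p.2)) = c * ev x l := by
      intro c l
      induction l with
      | nil => simp [ev]
      | cons p l ihl =>
        simp only [ev, List.map_cons, List.sum_cons] at ihl ⊢
        rw [ihl]; ring
    have e : ev x (comb (t :: ts)) =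
        (t.2.2.2 : ℤ) * ev x (fm t.1 t.2.1 t.2.2.1) + ev x (comb ts) := by
      rw [← sc]
      simp only [comb, ev, List.flatMap_cons, List.map_append, List.sum_append]
    have : 0 < (t.2.2.2 : ℤ) * ev x (fm t.1 t.2.1 t.2.2.1) :=
      mul_pos (by exact_mod_cast ht.2) ht.1
    rw [e]
    exact ⟨by linarith, fun _ => by linarith⟩

section
variable (k : ℕ → ℕ) (x : ℕ → ℤ) (hk : ∀ v, k v < 3) (hx : ∀ v, v < 12 → 0 < x v)
  (hM : ∀ v, v < 11 → x v < x 11)
  (hR : ∀ a b, isArc a b = true → Rel (k a) (x a) (k b) (x b) (x 11))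
include hk hx hM hR

lemma valid_pos (cl : ℕ → ℕ) (Fs : List (ℕ × ℕ × ℕ)) (hc : ∀ v, cl v < 3 → k v = cl v)
    (hF : ∀ t ∈ Fs, 0 < ev x (fm t.1 t.2.1 t.2.2)) (ty a b : ℕ)
    (h : valid cl Fs ty a b = true) : 0 < ev x (fm ty a b) := by
  unfold valid at h
  split_ifs at h with h1 h2 h3
  · subst h1
    have := hM a (by simpa using h)
    simp [fm, ev]; linarith
  · subst h2
    simp only [Bool.and_eq_true, decide_eq_true_eq] at h
    obtain ⟨⟨ha, h3⟩, h4⟩ := h
    have r := hR a b ha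
    have e1 := hc a h3
    have e2 := hc b (h4 ▸ h3)
    have := hk a
    unfold Rel at r
    simp [fm, ev]
    omega
  · simp only [Bool.and_eq_true, decide_eq_true_eq] at h
    obtain ⟨⟨ha, h4⟩, h5⟩ := h
    have r := hR a b ha
    have e1 := hc a (by omega)
    have e2 := hc b h4
    unfold Rel at r
    rcases h3 with h3 | h3 <;> subst h3 <;> simp [fm, ev] <;> omega
  · exact hF (ty, a, b) (by simpa using h)

lemma sound (t : Tr) : ∀ (cl : ℕ → ℕ) (Fs : List (ℕ × ℕ × ℕ)), (∀ v, cl v < 3 → k v = cl v) →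
    (∀ t ∈ Fs, 0 < ev x (fm t.1 t.2.1 t.2.2)) → chk t cl Fs = true → False := by
  induction t with
  | L ts =>
    intro cl Fs hc hF h
    simp only [chk, Bool.and_eq_true, List.all_eq_true, decide_eq_true_eq, Bool.not_eq_true',
      List.isEmpty_eq_false_iff, List.mem_range] at h
    obtain ⟨⟨⟨h0, h1⟩, h2⟩, h3⟩ := h
    have p := (ev_comb x ts (fun t ht =>
      ⟨valid_pos k x hk hx hM hR cl Fs hc hF _ _ _ (h1 t ht).1, (h1 t ht).2⟩)).2 h0
    rw [ev_eq x _ h2] at p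
    have : ∑ v ∈ Finset.range 12, co (comb ts) v * x v ≤ 0 :=
      Finset.sum_nonpos fun v hv => by
        have hv := Finset.mem_range.1 hv
        exact mul_nonpos_of_nonpos_of_nonneg (h3 v hv) (hx v hv).le
    linarith
  | V a t0 t1 t2 ih0 ih1 ih2 =>
    intro cl Fs hc hF h
    simp only [chk, Bool.and_eq_true, decide_eq_true_eq] at h
    obtain ⟨⟨⟨-, h0⟩, h1⟩, h2⟩ := h
    have key : ∀ i, k a = i → ∀ v, (if v = a then i else cl v) < 3 →
        k v = (if v = a then i else cl v) := by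
      intro i hi v hv
      split_ifs at hv ⊢ with e
      · rw [e, hi]
      · exact hc v hv
    have := hk a
    rcases (by omega : k a = 0 ∨ k a = 1 ∨ k a = 2) with e | e | e
    · exact ih0 _ Fs (key 0 e) hF h0
    · exact ih1 _ Fs (key 1 e) hF h1
    · exact ih2 _ Fs (key 2 e) hF h2
  | D a b t1 t2 ih1 ih2 =>
    intro cl Fs hc hF h
    simp only [chk, Bool.and_eq_true, decide_eq_true_eq] at h
    obtain ⟨⟨⟨⟨ha, h3⟩, h4⟩, h1⟩, h2⟩ := h
    have r := hR a b ha
    have e1 := hc a h3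
    have e2 := hc b (by omega)
    have : x a + 2 * x b < x 11 ∨ 2 * x 11 < 2 * x a + x b := by
      unfold Rel at r; omega
    rcases this with e | e
    · refine ih1 cl _ hc ?_ h1
      intro t ht
      rcases List.mem_cons.1 ht with rfl | ht
      · simp [fm, ev]; omega
      · exact hF t ht
    · refine ih2 cl _ hc ?_ h2
      intro t ht
      rcases List.mem_cons.1 ht with rfl | ht
      · simp [fm, ev]; omega
      · exact hF t ht
end

end Pool.Agent.H.MP_b466f1_co
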