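import Pool.Agent.H.MP_b466f1_co.A

namespace Pool.Agent.H.MP_b466f1_co

def t0 : Tr := (.V 1 (.V 5 (.V 10 (.V 8 (.L [(2,4,8,1), (2,5,10,1), (2,8,5,1), (2,10,4,1)]) (.D 10 8 (.L [(2,5,10,1), (3,8,5,1), (5,10,8,1)]) (.V 2 (.L [(2,4,2,2), (4,8,2,1), (2,10,4,2), (6,10,8,1)]) (.L [(4,2,10,1), (2,8,2,1), (6,10,8,1)]) (.D 2 10 (.L [(1,8,8,1), (5,2,10,1), (6,10,8,1)]) (.L [(4,1,2,1), (6,2,10,1), (2,4,1,1), (2,10,4,1)])))) (.D 8 5 (.V 3 (.L [(3,3,8,1), (2,3,9,2), (5,8,5,1), (2,9,5,2)]) (.D 5 3 (.L [(3,3,9,1), (5,5,3,1), (2,9,5,1)]) (.L [(1,3,3,1), (6,5,3,1), (5,8,5,1)])) (.L [(2,3,8,1), (3,5,3,1), (5,8,5,1)])) (.L [(4,4,8,1), (2,5,10,1), (6,8,5,1), (2,10,4,1)]))) (.L [(6,6,7,1), (2,7,10,1), (4,10,6,1)]) (.D 10 6 (.L [(2,5,1,2),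 (3,5,10,1), (6,6,7,1), (4,7,1,1), (5,10,6,1)]) (.D 7 10 (.L [(1,6,6,3), (3,7,1,2), (4,7,1,1), (5,7,10,3), (6,10,6,3)]) (.V 3 (.L [(2,1,3,1), (2,3,9,1), (2,4,1,1), (2,9,4,1)]) (.D 5 3 (.L [(3,3,9,1), (5,5,3,1), (2,9,5,1)]) (.L [(6,5,3,2), (4,7,5,2), (6,7,10,1), (4,10,3,1)])) (.V 0 (.L [(2,0,4,1), (2,1,0,1), (2,4,1,1)]) (.D 1 0 (.L [(3,0,9,1), (5,1,0,1), (2,9,1,1)]) (.L [(6,1,0,2), (4,3,0,1), (4,7,1,2), (6,7,10,1), (2,10,3,1)])) (.L [(2,0,10,1), (2,3,0,1), (2,10,3,1)])))))) (.L [(4,5,6,1), (6,6,7,1), (2,7,5,1)]) (.D 5 1 (.L [(5,5,1,1), (2,9,1,2), (3,9,5,1)]) (.D 7 5 (.L [(6,5,1,1), (3,7,1,1), (4,7,1,1), (5,7,5,1)]) (.V 3 (.L [(2,1,3,1), (2,3,9,1), (6,5,1,1), (4,9,5,1)]) (.D 1 3 (.L [(5,1,3,1), (3,3,9,1), (6,5,1,1), (4,9,5,1)])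 (.L [(6,1,3,2), (4,5,3,1), (4,7,1,2), (6,7,5,1)])) (.L [(4,1,3,1), (6,5,1,1), (2,5,3,2)]))))) (.L [(4,1,6,1), (6,6,7,1), (2,7,1,1)]) (.D 1 6 (.L [(5,1,6,1), (3,4,1,1), (6,6,7,1), (4,7,4,1)]) (.D 7 1 (.L [(1,6,6,1), (6,1,6,1), (5,7,1,1)]) (.V 5 (.V 3 (.L [(2,3,9,1), (2,5,3,1), (2,9,5,1)]) (.D 5 3 (.L [(3,3,9,1), (5,5,3,1), (2,9,5,1)]) (.L [(4,1,3,1), (6,5,3,2), (6,7,1,1), (4,7,5,2)])) (.D 3 9 (.L [(2,1,3,1), (5,3,9,1), (3,9,1,1)]) (.L [(6,3,9,1), (4,5,3,1), (2,9,5,1)]))) (.L [(4,5,6,1), (6,6,7,1), (2,7,5,1)]) (.D 5 6 (.L [(5,5,6,1), (6,6,7,1), (4,7,4,1), (2,9,4,2), (3,9,5,1)]) (.D 7 5 (.L [(1,6,6,1), (6,5,6,1), (5,7,5,1)]) (.V 2 (.V 10 (.L [(2,2,10,1), (2,4,2,1), (2,10,4,1)]) (.L [(4,5,10,1), (6,7,5,1), (2,7,10,2)])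 (.D 10 4 (.L [(2,5,10,1), (2,9,4,2), (3,9,5,1), (5,10,4,1)]) (.L [(4,2,10,1), (2,4,2,1), (6,10,4,1)]))) (.D 2 5 (.L [(1,6,6,1), (5,2,5,1), (6,5,6,1)]) (.L [(4,1,2,1), (6,2,5,1), (2,5,1,1)])) (.L [(2,1,2,1), (2,2,5,1), (2,5,1,1)]))))))))
def t1 : Tr := (.D 9 6 (.L [(1,7,7,1), (6,6,7,1), (5,9,6,1)]) (.D 7 9 (.L [(1,6,6,3), (3,7,4,2), (4,7,4,1), (5,7,9,3), (6,9,6,3)]) (.D 9 4 (.V 1 (.D 9 1 (.V 0 (.L [(2,0,4,2), (3,0,9,1), (2,4,1,2), (5,9,1,1)]) (.D 1 0 (.L [(3,0,4,1), (5,1,0,1), (2,4,1,1)]) (.L [(1,0,0,1), (6,1,0,1), (5,9,1,1)])) (.L [(2,0,9,1), (3,1,0,1), (5,9,1,1)])) (.V 5 (.V 2 (.L [(2,1,2,1), (2,2,5,1), (2,5,1,1)]) (.D 1 2 (.L [(5,1,2,1), (3,2,5,1), (2,5,1,1)]) (.D 4 2 (.L [(1,9,9,1), (6,1,2,2), (5,4,2,1), (4,7,1,2),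 (6,7,9,1)]) (.L [(1,2,2,15), (6,4,2,9), (4,7,1,2), (6,7,9,1), (6,9,1,4), (5,9,4,9)]))) (.L [(4,1,2,1), (3,4,2,2), (6,9,1,1), (5,9,4,2)])) (.L [(2,7,5,2), (6,7,9,1), (4,9,5,1)]) (.V 3 (.L [(2,1,3,1), (4,3,9,1), (6,9,1,1)]) (.D 3 9 (.L [(5,3,9,6), (4,7,1,4), (6,7,9,2), (6,9,1,5)]) (.L [(6,3,9,1), (4,5,3,1), (2,9,5,1)])) (.L [(4,1,3,1), (2,5,3,2), (6,9,1,1), (2,9,5,2)])))) (.L [(2,7,1,2), (6,7,9,1), (4,9,1,1)]) (.V 0 (.L [(2,0,4,2), (3,0,9,1), (5,9,4,1)]) (.D 0 9 (.L [(1,6,6,12), (3,0,4,4), (5,0,9,8), (5,9,4,2), (6,9,6,9)]) (.L [(6,0,9,1), (4,1,0,1), (2,9,1,1)])) (.L [(2,0,9,1), (2,1,0,1), (2,9,1,1)]))) (.V 1 (.D 9 1 (.L [(2,4,1,4), (5,9,1,2), (6,9,4,1)]) (.V 5 (.V 10 (.V 2 (.L [(2,1,2,1), (2,2,5,1), (2,4,1,1), (2,5,10,1),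 (2,10,4,1)]) (.D 4 2 (.L [(3,2,5,1), (5,4,2,1), (2,5,10,1), (2,10,4,1)]) (.V 0 (.L [(2,0,10,2), (2,1,0,2), (4,2,10,1), (2,4,1,2), (6,4,2,1)]) (.L [(4,0,4,1), (2,2,0,1), (6,4,2,1)]) (.D 0 4 (.L [(1,2,2,1), (5,0,4,1), (6,4,2,1)]) (.L [(6,0,4,1), (4,1,0,1), (2,4,1,1)])))) (.D 2 10 (.V 8 (.L [(5,2,10,1), (2,5,10,2), (3,8,2,1), (2,8,5,2)]) (.D 10 8 (.L [(2,5,10,1), (3,8,5,1), (5,10,8,1)]) (.L [(1,8,8,1), (5,2,10,1), (6,10,8,1)])) (.L [(5,2,10,1), (2,8,2,1), (3,10,8,1)])) (.L [(4,1,2,1), (6,2,10,1), (2,4,1,1), (2,10,4,1)]))) (.L [(6,6,7,1), (2,7,10,1), (4,10,6,1)]) (.D 10 6 (.L [(2,5,1,2), (3,5,10,1), (6,6,7,1), (4,7,1,1), (5,10,6,1)]) (.D 7 10 (.L [(1,6,6,1), (1,9,9,1), (6,7,9,1), (5,7,10,2), (6,10,6,1)]) (.D 10 4 (.V 2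 (.L [(2,1,2,1), (2,2,5,1), (2,5,1,1)]) (.D 4 2 (.D 2 10 (.L [(1,6,6,6), (3,2,5,4), (5,2,10,8), (4,7,5,2), (6,7,10,1), (6,10,6,6)]) (.L [(6,2,10,2), (5,4,2,2), (4,5,10,1)])) (.L [(1,2,2,1), (6,4,2,1), (5,10,4,1)])) (.L [(2,2,10,1), (3,4,2,1), (5,10,4,1)])) (.V 8 (.L [(2,4,8,1), (4,5,10,1), (2,8,5,1), (6,10,4,1)]) (.D 4 8 (.L [(5,4,8,1), (4,5,10,1), (3,8,5,1), (6,10,4,1)]) (.L [(6,4,8,2), (4,7,4,2), (6,7,10,1), (4,10,8,1)])) (.L [(4,4,8,1), (6,10,4,1), (2,10,8,2)])))))) (.L [(2,7,5,2), (6,7,9,1), (4,9,5,1)]) (.V 3 (.L [(2,1,3,1), (4,3,9,1), (6,9,1,1)]) (.D 3 9 (.L [(5,3,9,6), (4,7,1,4), (6,7,9,2), (6,9,1,5)]) (.L [(6,3,9,1), (4,5,3,1), (2,9,5,1)])) (.L [(4,1,3,1), (2,5,3,2), (6,9,1,1), (2,9,5,2)])))) (.L [(2,7,1,2), (6,7,9,1),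 (4,9,1,1)]) (.L [(4,4,1,1), (2,9,1,2), (6,9,4,1)])))))
def t2 : Tr := (.V 9 t0 (.L [(6,6,7,1), (2,7,9,1), (4,9,6,1)]) t1)
def t3 : Tr := (.D 6 7 (.L [(2,4,6,1), (5,6,7,1), (3,7,4,1)]) t2)
def t4 : Tr := (.D 7 10 (.V 2 (.L [(2,2,10,1), (2,4,2,1), (2,10,4,1)]) (.D 4 2 (.L [(3,2,10,1), (5,4,2,1), (2,10,4,1)]) (.L [(1,2,2,1), (6,4,2,1), (5,7,4,1)])) (.D 2 10 (.V 8 (.V 5 (.L [(5,2,10,1), (2,5,10,2), (3,8,2,1), (2,8,5,2)]) (.D 8 5 (.L [(5,2,10,1), (3,5,10,2), (3,8,2,1), (5,8,5,2)]) (.V 9 (.L [(3,2,5,1), (4,2,5,2), (5,7,4,2), (3,7,5,1), (6,8,5,2), (2,8,9,4), (2,9,4,4)]) (.D 8 9 (.L [(5,7,4,1), (4,7,5,1), (3,7,9,1), (6,8,5,2), (5,8,9,4), (3,9,4,2)]) (.V 1 (.V 0 (.L [(2,0,10,2), (2,1,0,2), (3,1,2,1), (5,2,10,1)]) (.D 1 0 (.L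 [(3,0,10,2), (5,1,0,2), (3,1,2,1), (5,2,10,1)]) (.L [(2,0,9,1), (6,1,0,1), (2,1,6,2), (4,9,6,1)])) (.D 0 4 (.L [(5,0,4,1), (2,2,0,1), (3,4,2,1)]) (.L [(6,0,4,1), (4,1,0,1), (2,4,1,1)]))) (.D 4 1 (.L [(5,2,10,1), (5,4,1,2), (3,4,2,1), (2,5,1,4), (3,5,10,2)]) (.L [(6,4,1,2), (4,7,1,1), (5,7,4,2)])) (.D 1 6 (.L [(5,1,6,1), (3,6,7,1), (2,7,1,1)]) (.L [(2,1,2,4), (6,1,6,2), (4,5,6,1), (4,8,2,2), (6,8,9,1), (2,9,5,1)])))) (.D 9 6 (.L [(3,6,7,1), (2,7,9,1), (5,9,6,1)]) (.L [(4,5,6,1), (6,8,5,1), (4,8,9,2), (6,9,6,2)])))) (.V 1 (.D 5 1 (.L [(3,1,2,1), (2,2,5,1), (5,5,1,1)]) (.D 7 1 (.V 3 (.L [(2,1,3,1), (2,3,8,1), (6,5,1,1), (4,8,5,1)]) (.D 1 3 (.L [(5,1,3,1), (3,3,8,1), (6,5,1,1), (4,8,5,1)]) (.L [(6,1,3,5), (6,5,1,2), (4,5,3,4),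 (5,7,1,6)])) (.L [(4,1,3,1), (6,5,1,1), (2,5,3,2)])) (.L [(4,1,2,1), (3,4,2,2), (6,7,1,1), (5,7,4,2)]))) (.D 1 2 (.L [(5,1,2,1), (3,4,2,2), (3,7,1,1), (5,7,4,2)]) (.L [(6,1,2,1), (2,2,5,1), (4,5,1,1)])) (.L [(2,1,2,1), (2,2,5,1), (2,5,1,1)]))) (.D 10 8 (.D 4 8 (.D 8 2 (.V 5 (.L [(5,2,10,1), (3,4,2,1), (5,4,8,2), (2,5,10,2), (3,8,5,2)]) (.V 1 (.D 7 1 (.V 0 (.L [(2,0,10,2), (2,1,0,2), (3,1,2,1), (5,2,10,1)]) (.D 1 0 (.L [(3,0,10,2), (5,1,0,2), (3,1,2,1), (5,2,10,1)]) (.L [(6,1,0,6), (4,2,0,3), (3,2,5,2), (4,2,5,1), (5,7,1,6)])) (.D 0 4 (.L [(5,0,4,1), (2,2,0,1), (3,4,2,1)]) (.L [(6,0,4,1), (4,1,0,1), (2,4,1,1)]))) (.L [(3,4,2,12), (4,5,1,4), (3,5,10,2), (6,7,1,8), (5,7,4,15), (5,7,10,1), (5,8,2,6)])) (.D 4 1 (.L [(5,2,10,1),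 (5,4,1,2), (3,4,2,1), (2,5,1,4), (3,5,10,2)]) (.L [(6,4,1,2), (4,7,1,1), (5,7,4,2)])) (.D 1 6 (.L [(5,1,6,1), (3,6,7,1), (2,7,1,1)]) (.L [(2,1,2,8), (6,1,6,4), (5,2,10,2), (4,5,6,2), (3,5,10,1), (5,8,2,3)]))) (.D 8 5 (.D 5 6 (.L [(2,2,5,1), (3,4,2,1), (5,5,6,1), (3,6,7,1), (5,7,4,1)]) (.L [(1,6,6,1), (6,5,6,1), (5,8,5,1)])) (.L [(1,5,5,3), (3,4,2,2), (5,4,8,4), (5,8,2,1), (6,8,5,3)]))) (.L [(3,4,2,1), (4,4,2,1), (5,4,8,1), (6,8,2,1)])) (.L [(6,4,8,2), (5,7,4,2), (5,10,8,1)])) (.L [(1,8,8,1), (5,2,10,1), (6,10,8,1)])) (.L [(5,2,10,1), (2,8,2,1), (3,10,8,1)])) (.L [(6,2,10,1), (4,4,2,1), (2,10,4,1)]))) (.L [(5,7,4,2), (6,7,10,1), (2,10,4,1)]))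
def t5 : Tr := (.V 9 (.L [(2,4,8,1), (2,8,9,1), (2,9,4,1)]) (.D 8 9 (.L [(2,4,8,1), (5,8,9,1), (3,9,4,1)]) (.V 5 (.L [(2,5,6,2), (2,8,5,2), (6,8,9,1), (4,9,6,1)]) (.L [(2,5,10,1), (6,8,9,1), (2,9,5,1), (4,10,8,1)]) (.D 5 6 (.L [(5,5,6,1), (3,6,7,1), (2,7,5,1)]) (.L [(6,5,6,2), (4,8,5,2), (6,8,9,1), (4,9,6,1)])))) (.D 9 6 (.L [(3,6,7,1), (2,7,9,1), (5,9,6,1)]) (.D 9 4 (.V 5 (.D 5 10 (.L [(5,5,10,2), (2,8,5,2), (3,8,9,1), (5,9,4,1), (3,10,4,2)]) (.L [(2,5,6,2), (6,5,10,1), (4,10,6,1)])) (.D 8 5 (.V 3 (.L [(2,3,8,1), (3,5,3,1), (5,8,5,1)]) (.V 0 (.L [(2,0,4,2), (3,0,9,1), (5,9,4,1)]) (.L [(2,0,10,1), (2,3,0,1), (2,10,3,1)]) (.D 3 0 (.L [(3,0,10,1), (5,3,0,1), (2,10,3,1)]) (.D 0 4 (.V 1 (.D 7 1 (.D 1 3 (.L [(3,1,0,1), (4,1,0,1),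 (5,1,3,1), (6,3,0,1)]) (.L [(1,3,3,1), (6,1,3,1), (5,7,1,1)])) (.L [(2,1,6,1), (4,6,7,1), (6,7,1,1)])) (.D 1 0 (.V 2 (.D 2 5 (.D 2 10 (.L [(5,1,0,6), (3,1,2,3), (3,2,0,12), (5,2,10,27), (5,9,4,14), (6,9,6,4), (3,10,4,28), (4,10,6,2)]) (.L [(5,2,5,2), (6,2,10,1), (3,5,6,2), (4,10,6,1)])) (.L [(4,1,2,1), (6,2,5,1), (2,5,1,1)])) (.L [(2,1,2,1), (2,2,5,1), (2,5,1,1)]) (.L [(5,1,0,6), (3,1,6,3), (2,2,0,12), (3,4,2,12), (5,9,4,13), (6,9,6,5), (3,10,4,2), (4,10,6,4)])) (.L [(2,0,9,1), (6,1,0,1), (4,9,1,1)])) (.L [(5,0,4,1), (2,1,0,1), (3,4,1,1)])) (.L [(6,0,4,2), (2,0,9,4), (3,8,9,1), (4,8,9,2), (5,9,4,1)])))) (.D 5 3 (.D 10 3 (.V 1 (.D 7 1 (.L [(3,1,3,4), (5,7,1,4), (3,7,5,2), (5,8,5,1), (5,10,3,2), (3,10,8,1)]) (.L [(2,1,6,1),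 (4,6,7,1), (6,7,1,1)])) (.D 4 1 (.V 0 (.L [(2,0,4,2), (3,0,9,1), (5,9,4,1)]) (.L [(2,0,10,1), (3,3,0,1), (5,10,3,1)]) (.D 1 0 (.V 2 (.D 2 10 (.L [(5,1,0,6), (3,1,2,3), (3,2,0,12), (5,2,10,27), (5,9,4,14), (6,9,6,4), (3,10,4,28), (4,10,6,2)]) (.D 2 5 (.L [(5,2,5,2), (6,2,10,1), (3,5,6,2), (4,10,6,1)]) (.L [(4,1,2,1), (6,2,5,1), (2,5,1,1)]))) (.L [(2,1,2,1), (2,2,5,1), (2,5,1,1)]) (.L [(5,1,0,6), (3,1,6,3), (2,2,0,12), (3,4,2,12), (5,9,4,13), (6,9,6,5), (3,10,4,2), (4,10,6,4)])) (.L [(2,0,9,2), (6,1,0,2), (5,4,1,2), (4,8,9,1)]))) (.L [(6,4,1,2), (4,9,1,1), (5,9,4,2)])) (.L [(2,1,3,6), (2,9,1,6), (5,9,4,1), (6,9,6,2), (5,10,3,3), (3,10,4,2), (4,10,6,1)])) (.L [(5,5,3,1), (3,7,5,1), (4,7,10,2), (6,10,3,2)])) (.L [(2,3,9,2),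 (6,5,3,2), (5,8,5,2), (4,8,9,1)]))) (.L [(4,5,6,1), (6,8,5,1), (4,8,9,2), (6,9,6,2)])) (.V 3 (.D 5 3 (.L [(3,3,9,1), (5,5,3,1), (2,9,5,1)]) (.L [(2,3,8,1), (6,5,3,1), (4,8,5,1)])) (.D 3 9 (.L [(5,3,9,3), (5,9,4,1), (6,9,6,2), (2,10,3,3), (3,10,4,2), (4,10,6,1)]) (.L [(6,3,9,1), (4,5,3,1), (2,9,5,1)])) (.L [(2,3,9,1), (2,5,3,1), (2,9,5,1)]))) (.L [(2,4,8,1), (4,8,9,1), (6,9,4,1)]))))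
def t6 : Tr := (.D 10 8 (.L [(3,4,8,2), (5,7,4,2), (3,7,10,1), (5,10,8,1)]) (.V 5 (.D 5 10 (.L [(3,4,8,1), (4,4,8,2), (5,5,10,3), (6,10,8,3)]) (.L [(2,5,6,2), (6,5,10,1), (4,10,6,1)])) (.V 2 (.D 2 10 (.L [(5,2,10,3), (3,4,8,1), (4,4,8,2), (6,10,8,3)]) (.D 8 2 (.L [(6,2,10,2), (4,5,6,1), (3,6,7,1), (4,7,10,1), (5,8,2,2), (3,8,5,1)]) (.D 2 5 (.L [(5,2,5,2), (6,2,10,1), (3,5,6,2), (4,10,6,1)]) (.V 1 (.D 7 1 (.V 0 (.L [(2,0,4,18), (2,2,0,18), (6,2,5,8), (5,7,4,9), (6,8,2,2), (4,8,5,4)]) (.D 1 0 (.L [(3,0,4,1), (5,1,0,1), (2,4,1,1)]) (.L [(2,0,10,2), (6,1,0,2), (5,7,1,2), (4,7,10,1)])) (.D 0 4 (.V 3 (.V 9 (.L [(5,0,4,1), (3,3,0,1), (2,3,9,2), (2,9,4,2)]) (.D 3 9 (.L [(5,0,4,1), (3,3,0,1), (5,3,9,2), (3,9,4,2)]) (.L [(6,3,9,2),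 (4,8,5,1), (2,9,5,2), (4,10,3,2), (6,10,8,1)])) (.D 9 4 (.L [(3,4,8,1), (2,8,9,1), (5,9,4,1)]) (.L [(5,0,4,1), (3,3,0,1), (4,3,9,2), (6,9,4,2)]))) (.D 1 3 (.L [(3,1,0,4), (5,1,3,8), (4,2,0,2), (6,2,10,1), (4,4,8,2), (2,10,3,16), (3,10,4,2), (6,10,8,4)]) (.L [(1,3,3,1), (6,1,3,1), (5,7,1,1)])) (.D 5 3 (.L [(3,1,3,2), (5,5,3,1), (5,7,1,2), (3,7,5,1)]) (.L [(4,2,0,1), (2,3,0,2), (6,5,3,2), (6,8,2,1), (4,8,5,2)]))) (.L [(6,0,4,12), (4,0,10,4), (4,2,0,10), (6,2,10,5), (5,7,4,6)]))) (.L [(2,1,6,1), (4,6,7,1), (6,7,1,1)])) (.L [(4,1,2,1), (6,2,5,1), (2,5,1,1)]) (.D 5 1 (.L [(5,5,1,1), (2,7,1,2), (3,7,5,1)]) (.D 1 2 (.L [(5,1,2,6), (6,2,5,4), (6,8,2,1), (4,8,5,2)]) (.V 3 (.D 1 3 (.L [(5,1,3,1), (3,3,8,1), (6,5,1,1), (4,8,5,1)])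 (.V 0 (.L [(2,0,4,18), (2,2,0,18), (6,2,5,8), (5,7,4,9), (6,8,2,2), (4,8,5,4)]) (.D 3 0 (.L [(3,0,4,1), (6,1,3,1), (5,3,0,1), (4,4,1,1)]) (.L [(4,1,0,1), (6,3,0,2), (6,5,1,1), (4,5,3,2)])) (.L [(2,1,0,2), (6,1,2,1), (4,2,0,1)]))) (.L [(4,1,3,1), (6,5,1,1), (2,5,3,2)]) (.L [(2,1,3,1), (2,3,8,1), (6,5,1,1), (4,8,5,1)])))))))) (.D 4 2 (.V 1 (.D 1 2 (.D 7 1 (.V 0 (.L [(2,0,4,1), (2,1,0,1), (2,4,1,1)]) (.D 1 0 (.L [(3,0,4,1), (5,1,0,1), (2,4,1,1)]) (.L [(2,0,10,2), (6,1,0,2), (5,7,1,2), (4,7,10,1)])) (.D 2 0 (.D 0 4 (.V 3 (.V 9 (.L [(5,0,4,1), (3,3,0,1), (2,3,9,2), (2,9,4,2)]) (.D 3 9 (.L [(5,0,4,1), (3,3,0,1), (5,3,9,2), (3,9,4,2)]) (.L [(6,3,9,2), (4,8,5,1), (2,9,5,2), (4,10,3,2), (6,10,8,1)])) (.D 9 1 (.L [(3,1,0,2),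 (5,2,0,1), (3,8,2,1), (2,8,9,2), (5,9,1,2)]) (.L [(2,1,3,1), (4,3,9,1), (6,9,1,1)]))) (.D 1 3 (.L [(3,1,0,2), (5,1,3,4), (5,2,0,1), (4,4,8,1), (2,10,3,8), (3,10,4,1), (6,10,8,2)]) (.L [(1,3,3,1), (6,1,3,1), (5,7,1,1)])) (.D 5 3 (.L [(3,1,3,2), (5,5,3,1), (5,7,1,2), (3,7,5,1)]) (.L [(5,2,0,1), (2,3,0,2), (6,5,3,2), (3,8,2,1), (4,8,5,2)]))) (.L [(6,0,4,6), (4,0,10,2), (5,2,0,5), (5,7,4,3)])) (.L [(4,0,10,1), (6,2,0,1), (5,4,2,1), (3,4,8,1), (4,4,8,1), (6,10,8,1)]))) (.L [(2,1,6,1), (4,6,7,1), (6,7,1,1)])) (.L [(6,1,2,2), (2,1,6,4), (5,4,2,1), (3,4,8,1), (4,4,8,1), (4,10,6,2), (6,10,8,1)])) (.L [(2,1,2,1), (2,2,5,1), (2,5,1,1)]) (.D 1 6 (.L [(5,1,6,1), (3,4,1,1), (3,6,7,1), (5,7,4,1)]) (.D 5 1 (.L [(6,1,6,2), (5,5,1,2),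 (4,10,6,1)]) (.V 3 (.D 1 3 (.L [(5,1,3,1), (3,3,8,1), (6,5,1,1), (4,8,5,1)]) (.V 9 (.L [(6,1,3,1), (2,3,9,1), (4,9,1,1)]) (.D 3 9 (.L [(6,1,3,1), (5,3,9,1), (4,4,1,1), (3,9,4,1)]) (.L [(6,3,9,2), (4,8,5,1), (2,9,5,2), (4,10,3,2), (6,10,8,1)])) (.D 9 4 (.L [(3,4,8,1), (2,8,9,1), (5,9,4,1)]) (.L [(6,1,3,1), (4,3,9,1), (4,4,1,1), (6,9,4,1)])))) (.L [(4,1,3,1), (6,5,1,1), (4,8,5,1), (2,10,3,2), (6,10,8,1)]) (.L [(2,1,3,1), (2,3,8,1), (6,5,1,1), (4,8,5,1)]))))) (.L [(2,2,5,1), (6,4,2,1), (4,5,6,1), (3,6,7,1), (5,7,4,1)])) (.L [(4,2,10,1), (2,8,2,1), (6,10,8,1)])) (.L [(4,5,10,1), (2,8,5,1), (6,10,8,1)])))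
def t7 : Tr := (.V 8 t5 (.D 4 8 (.L [(5,4,8,1), (3,10,4,1), (2,10,8,2)]) (.L [(1,8,8,1), (6,4,8,1), (5,7,4,1)])) t6)
def t8 : Tr := (.V 2 (.V 0 (.L [(2,0,4,2), (3,0,10,1), (5,10,4,1)]) (.D 0 10 (.L [(1,6,6,12), (3,0,4,4), (5,0,10,8), (5,10,4,2), (6,10,6,9)]) (.D 2 0 (.L [(6,0,10,2), (5,2,0,2), (4,2,10,1)]) (.V 1 (.D 1 0 (.L [(6,0,10,8), (5,1,0,9), (6,2,0,2), (4,2,10,4)]) (.D 7 1 (.L [(1,0,0,1), (6,1,0,1), (5,7,1,1)]) (.L [(2,1,6,1), (4,6,7,1), (6,7,1,1)]))) (.D 4 1 (.V 5 (.D 7 5 (.L [(1,0,0,5), (6,2,0,4), (2,2,5,8), (5,4,1,1), (3,7,1,2), (5,7,5,4)]) (.L [(4,5,10,1), (4,6,7,1), (6,7,5,1), (6,10,6,1)])) (.D 5 10 (.L [(3,1,2,2), (4,1,2,1), (4,1,6,3), (3,5,6,2), (5,5,10,4), (6,10,6,4)]) (.L [(1,0,0,1), (6,2,0,1), (4,2,10,2),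 (5,4,1,5), (2,5,1,10), (6,5,10,4)])) (.D 5 6 (.L [(1,0,0,3), (6,2,0,3), (4,2,10,6), (5,4,1,1), (3,5,1,2), (5,5,6,4), (6,10,6,6)]) (.V 8 (.D 10 8 (.L [(2,5,10,1), (3,8,5,1), (5,10,8,1)]) (.L [(4,2,10,1), (2,8,2,1), (6,10,8,1)])) (.D 8 5 (.L [(3,1,2,1), (4,1,6,2), (6,5,6,4), (3,8,2,3), (4,8,2,2), (5,8,5,4)]) (.L [(2,5,10,1), (6,8,5,1), (4,10,8,1)])) (.L [(2,5,10,1), (2,8,5,1), (2,10,8,1)])))) (.L [(6,4,1,2), (4,7,1,1), (5,10,4,2)])) (.L [(6,0,10,1), (4,1,0,1), (3,4,1,1), (5,10,4,1)])))) (.V 1 (.V 5 (.L [(2,1,2,1), (2,2,5,1), (2,5,1,1)]) (.D 2 5 (.L [(2,1,2,1), (5,2,5,1), (3,5,1,1)]) (.L [(6,2,5,1), (4,2,10,2), (4,5,6,1), (6,10,6,2)])) (.D 5 6 (.L [(3,2,5,1), (4,2,10,2), (5,5,6,1), (6,10,6,2)]) (.V 8 (.D 10 8 (.L [(2,5,10,1),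 (3,8,5,1), (5,10,8,1)]) (.L [(4,2,10,1), (2,8,2,1), (6,10,8,1)])) (.D 8 5 (.L [(1,6,6,3), (6,5,6,3), (3,8,2,2), (4,8,2,1), (5,8,5,3)]) (.L [(2,5,10,1), (6,8,5,1), (4,10,8,1)])) (.L [(2,5,10,1), (2,8,5,1), (2,10,8,1)])))) (.D 4 1 (.D 1 0 (.V 5 (.D 7 5 (.L [(5,1,0,1), (3,2,0,2), (2,2,5,4), (3,7,1,1), (5,7,5,2)]) (.L [(4,5,10,1), (4,6,7,1), (6,7,5,1), (6,10,6,1)])) (.D 5 10 (.L [(3,1,2,2), (4,1,2,1), (4,1,6,3), (3,5,6,2), (5,5,10,4), (6,10,6,4)]) (.L [(5,1,0,1), (3,2,0,2), (4,2,10,4), (5,4,1,9), (2,5,1,19), (6,5,10,8)])) (.D 5 6 (.L [(5,1,0,1), (3,2,0,2), (4,2,10,4), (3,5,1,1), (5,5,6,2), (6,10,6,4)]) (.V 8 (.D 10 8 (.L [(2,5,10,1), (3,8,5,1), (5,10,8,1)]) (.L [(4,2,10,1), (2,8,2,1), (6,10,8,1)])) (.D 8 5 (.L [(3,1,2,1),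 (4,1,2,1), (4,1,6,1), (6,5,6,2), (3,8,2,1), (5,8,5,2)]) (.L [(2,5,10,1), (6,8,5,1), (4,10,8,1)])) (.L [(2,5,10,1), (2,8,5,1), (2,10,8,1)])))) (.L [(2,0,10,3), (6,1,0,3), (3,2,10,1), (4,2,10,2), (5,4,1,3)])) (.L [(6,4,1,2), (4,7,1,1), (5,10,4,2)])) (.L [(2,0,10,1), (2,1,0,1), (3,4,1,1), (5,10,4,1)]))) (.D 4 2 (.D 2 10 (.L [(1,6,6,1), (5,2,10,1), (6,10,6,1)]) (.L [(1,10,10,1), (6,2,10,1), (5,4,2,1)])) (.L [(1,2,2,1), (6,4,2,1), (5,10,4,1)])) (.L [(2,2,10,1), (3,4,2,1), (5,10,4,1)]))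
def t9 : Tr := (.V 2 (.L [(4,2,10,1), (2,4,2,1), (6,10,4,1)]) (.D 2 10 (.L [(5,2,10,3), (5,7,4,1), (6,10,4,2)]) (.D 4 2 (.L [(1,10,10,1), (6,2,10,1), (5,4,2,1)]) (.L [(1,2,2,1), (6,4,2,1), (5,7,4,1)]))) (.V 8 (.V 5 (.L [(2,4,8,1), (4,5,10,1), (2,8,5,1), (6,10,4,1)]) (.D 5 10 (.L [(5,5,10,1), (5,7,4,2), (3,7,5,1), (6,10,4,1)]) (.D 8 5 (.L [(1,10,10,6), (3,4,2,1), (4,4,2,2), (6,5,10,6), (3,8,2,3), (5,8,5,6)]) (.V 9 (.L [(3,2,5,1), (4,2,5,2), (5,7,4,2), (3,7,5,1), (6,8,5,2), (2,8,9,4), (2,9,4,4)]) (.D 8 9 (.L [(5,7,4,1), (4,7,5,1), (3,7,9,1), (6,8,5,2), (5,8,9,4), (3,9,4,2)]) (.V 1 (.V 3 (.D 3 9 (.L [(2,1,3,1), (5,3,9,1), (2,4,1,1), (3,9,4,1)]) (.L [(6,3,9,1), (4,5,3,1), (2,9,5,1)])) (.L [(2,5,3,2), (6,5,10,1), (4,10,3,1)])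 (.L [(4,1,3,1), (2,4,1,1), (2,10,3,2), (6,10,4,1)])) (.D 4 1 (.L [(1,10,10,1), (5,4,1,1), (2,5,1,2), (6,5,10,1)]) (.L [(6,4,1,2), (4,7,1,1), (5,7,4,2)])) (.D 1 6 (.L [(5,1,6,1), (3,6,7,1), (2,7,1,1)]) (.L [(2,1,2,4), (6,1,6,2), (4,5,6,1), (4,8,2,2), (6,8,9,1), (2,9,5,1)])))) (.D 9 6 (.L [(3,6,7,1), (2,7,9,1), (5,9,6,1)]) (.L [(4,5,6,1), (6,8,5,1), (4,8,9,2), (6,9,6,2)]))))) (.V 1 (.D 5 1 (.L [(3,1,2,1), (2,2,5,1), (5,5,1,1)]) (.D 7 1 (.V 3 (.L [(2,1,3,1), (2,3,8,1), (6,5,1,1), (4,8,5,1)]) (.D 1 3 (.L [(5,1,3,1), (3,3,8,1), (6,5,1,1), (4,8,5,1)]) (.L [(6,1,3,2), (5,7,1,2), (4,10,3,1)])) (.L [(4,1,3,1), (6,5,1,1), (2,5,3,2)])) (.L [(4,1,2,1), (3,4,2,2), (6,7,1,1), (5,7,4,2)]))) (.D 1 2 (.L [(5,1,2,1), (3,4,2,2), (3,7,1,1),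 (5,7,4,2)]) (.L [(6,1,2,1), (2,2,5,1), (4,5,1,1)])) (.L [(2,1,2,1), (2,2,5,1), (2,5,1,1)]))) (.D 4 8 (.D 8 2 (.V 5 (.L [(5,4,8,1), (4,5,10,1), (3,8,5,1), (6,10,4,1)]) (.D 5 10 (.L [(5,5,10,1), (5,7,4,2), (3,7,5,1), (6,10,4,1)]) (.V 1 (.D 7 1 (.V 0 (.L [(4,0,10,1), (2,1,0,1), (2,4,1,1), (6,10,4,1)]) (.D 1 0 (.L [(3,0,4,1), (5,1,0,1), (2,4,1,1)]) (.L [(6,1,0,8), (4,2,0,4), (3,2,5,2), (5,7,1,8), (4,7,5,1)])) (.D 0 4 (.L [(5,0,4,1), (2,2,0,1), (3,4,2,1)]) (.L [(6,0,4,1), (4,1,0,1), (2,4,1,1)]))) (.L [(1,10,10,1), (3,4,2,6), (4,5,1,2), (6,5,10,1), (6,7,1,4), (5,7,4,8), (5,8,2,3)])) (.D 4 1 (.L [(1,10,10,1), (5,4,1,1), (2,5,1,2), (6,5,10,1)]) (.L [(6,4,1,2), (4,7,1,1), (5,7,4,2)])) (.D 5 1 (.L [(5,5,1,1), (2,7,1,2), (3,7,5,1)])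 (.L [(2,1,2,1), (4,2,5,1), (6,5,1,1)])))) (.D 5 6 (.L [(2,2,5,1), (3,4,2,1), (5,5,6,1), (3,6,7,1), (5,7,4,1)]) (.D 8 5 (.L [(1,6,6,1), (6,5,6,1), (5,8,5,1)]) (.L [(1,5,5,3), (3,4,2,2), (5,4,8,4), (5,8,2,1), (6,8,5,3)])))) (.L [(3,4,2,1), (4,4,2,1), (5,4,8,1), (6,8,2,1)])) (.L [(6,4,8,8), (5,7,4,9), (6,10,4,2), (4,10,8,4)])) (.L [(4,4,2,1), (2,8,2,2), (6,10,4,1), (2,10,8,2)])))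
def t10 : Tr := (.D 10 4 t8 t9)
def t11 : Tr := (.D 10 6 (.L [(3,6,7,1), (2,7,10,1), (5,10,6,1)]) t10)
def t12 : Tr := (.V 10 t4 t7 t11)
def t13 : Tr := (.D 7 4 t12 (.L [(2,4,6,1), (4,6,7,1), (6,7,4,1)]))
def t14 : Tr := (.V 7 (.L [(2,4,6,1), (2,6,7,1), (2,7,4,1)]) t3 t13)
def t15 : Tr := (.D 9 4 (.V 7 (.L [(3,4,6,1), (2,6,7,1), (2,7,9,1), (5,9,4,1)]) (.L [(2,7,4,2), (3,7,9,1), (5,9,4,1)]) (.D 7 9 (.V 1 (.D 7 1 (.V 0 (.L [(2,0,9,1), (2,1,0,1), (3,4,1,1), (5,9,4,1)]) (.L [(2,0,4,2), (3,0,9,1), (5,9,4,1)]) (.D 0 9 (.V 3 (.L [(5,0,9,1), (3,3,0,1), (2,3,9,2)]) (.D 1 3 (.L [(5,0,9,1), (3,1,0,1), (5,1,3,2), (3,3,9,2)]) (.L [(1,3,3,1), (6,1,3,1), (5,7,1,1)])) (.V 10 (.D 0 10 (.L [(5,0,10,1), (2,3,0,1), (3,10,3,1)]) (.D 10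 4 (.L [(6,0,10,1), (4,1,0,1), (3,4,1,1), (5,10,4,1)]) (.L [(4,4,6,1), (6,10,4,1), (2,10,6,2)]))) (.D 10 3 (.L [(3,1,3,2), (5,7,1,2), (3,7,10,1), (5,10,3,1)]) (.L [(3,1,0,1), (4,1,0,2), (2,3,0,3), (5,9,4,3), (6,10,3,3), (2,10,4,6)])) (.L [(2,0,10,1), (2,3,0,1), (2,10,3,1)]))) (.L [(6,0,9,1), (4,1,0,1), (3,4,1,1), (5,9,4,1)]))) (.L [(2,1,6,1), (4,6,7,1), (6,7,1,1)])) (.D 9 1 (.V 0 (.L [(2,0,9,1), (3,1,0,1), (5,9,1,1)]) (.L [(2,0,4,2), (3,0,9,1), (5,9,4,1)]) (.D 1 0 (.L [(3,0,4,1), (5,1,0,1), (2,4,1,1)]) (.L [(1,0,0,1), (6,1,0,1), (5,9,1,1)]))) (.L [(4,7,1,1), (5,7,9,2), (6,9,1,2)])) (.D 4 1 (.L [(5,4,1,1), (2,7,1,2), (3,7,4,1)]) (.L [(6,4,1,1), (3,9,1,1), (4,9,1,1), (5,9,4,1)]))) (.L [(3,4,6,1), (4,6,7,1), (6,7,9,1),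 (5,9,4,1)]))) (.L [(4,4,6,1), (6,9,4,1), (2,9,6,2)]))
def t16 : Tr := (.D 8 9 (.V 3 (.D 3 9 (.V 5 (.L [(5,3,9,1), (2,5,3,1), (3,9,5,1)]) (.D 8 5 (.L [(2,3,8,1), (3,5,3,1), (5,8,5,1)]) (.L [(4,5,6,1), (6,8,5,1), (5,8,9,2), (3,9,6,2)])) (.D 5 6 (.L [(5,5,6,1), (3,8,5,1), (5,8,9,2), (3,9,6,2)]) (.D 9 5 (.L [(3,4,6,1), (4,4,6,2), (6,5,6,3), (5,9,5,3)]) (.L [(5,3,9,2), (4,8,5,1), (6,9,5,2)])))) (.L [(2,3,8,2), (6,3,9,1), (5,8,9,2)])) (.L [(3,3,8,1), (2,3,9,2), (5,8,9,1)]) (.D 3 8 (.V 5 (.V 10 (.L [(5,3,8,1), (3,10,3,1), (2,10,8,2)]) (.D 5 10 (.L [(5,3,8,1), (3,5,3,1), (5,5,10,2), (3,10,8,2)]) (.L [(4,4,6,1), (2,5,6,2), (6,5,10,1), (2,10,4,1)])) (.D 10 8 (.D 10 6 (.L [(2,5,6,2), (3,5,10,1), (5,10,6,1)]) (.V 0 (.D 0 4 (.L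 [(5,0,4,2), (3,0,10,1), (3,4,8,2), (5,10,8,1)]) (.L [(6,0,4,1), (4,0,10,2), (4,4,6,1), (6,10,6,2)])) (.D 0 10 (.L [(5,0,10,9), (4,4,6,4), (3,4,8,2), (6,10,6,8), (5,10,8,1)]) (.L [(2,0,9,2), (6,0,10,1), (4,3,9,1), (2,10,3,1)])) (.L [(2,0,10,1), (2,3,0,1), (2,10,3,1)]))) (.L [(5,3,8,1), (4,3,9,1), (4,5,3,1), (3,9,5,1), (2,10,3,4), (6,10,8,2)]))) (.D 8 5 (.D 5 3 (.L [(3,3,9,1), (5,5,3,1), (2,9,5,1)]) (.L [(1,3,3,1), (6,5,3,1), (5,8,5,1)])) (.L [(1,5,5,3), (5,3,8,4), (3,3,9,2), (6,8,5,3), (5,8,9,1)])) (.L [(5,3,8,1), (2,5,3,1), (3,8,5,1)])) (.V 5 (.L [(6,3,8,1), (4,5,3,1), (5,8,9,1), (3,9,5,1)]) (.D 8 5 (.D 5 3 (.L [(6,3,8,2), (3,4,6,1), (4,4,6,2), (5,5,3,2), (3,5,6,3), (5,8,5,2)]) (.L [(1,3,3,1), (6,5,3,1), (5,8,5,1)]))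 (.L [(4,5,6,1), (6,8,5,1), (5,8,9,2), (3,9,6,2)])) (.D 9 5 (.D 5 6 (.L [(5,5,6,1), (3,8,5,1), (5,8,9,2), (3,9,6,2)]) (.L [(3,4,6,1), (4,4,6,2), (6,5,6,3), (5,9,5,3)])) (.L [(3,8,5,1), (4,8,5,1), (5,8,9,1), (6,9,5,1)]))))) (.L [(4,4,8,1), (6,8,9,1), (2,9,4,1)]))
def t17 : Tr := (.D 4 8 (.L [(5,4,8,1), (3,8,9,1), (2,9,4,1)]) (.V 2 (.D 8 2 (.V 10 (.D 10 4 (.L [(6,4,8,2), (5,10,4,2), (4,10,8,1)]) (.L [(4,4,6,1), (6,10,4,1), (2,10,6,2)])) (.D 2 10 (.D 10 8 (.V 5 (.V 7 (.L [(2,5,6,1), (2,6,7,1), (2,7,5,1)]) (.D 5 10 (.L [(5,5,10,1), (3,7,5,1), (2,7,10,2)]) (.L [(5,2,10,3), (4,4,6,4), (6,4,8,2), (2,5,6,8), (6,5,10,4), (5,10,8,1)])) (.L [(6,4,8,2), (4,7,4,2), (3,7,10,1), (5,10,8,1)])) (.L [(2,5,10,1), (3,8,9,1), (2,9,5,1),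 (5,10,8,1)]) (.D 5 6 (.L [(3,2,5,1), (5,2,10,2), (5,5,6,1), (3,10,6,2)]) (.V 7 (.L [(6,5,6,1), (2,6,7,1), (4,7,5,1)]) (.D 7 5 (.L [(4,4,6,4), (6,4,8,2), (6,5,6,5), (5,7,5,5), (5,10,8,1)]) (.L [(4,5,10,1), (6,7,5,1), (2,7,10,2)])) (.L [(6,4,8,2), (4,7,4,2), (3,7,10,1), (5,10,8,1)])))) (.L [(1,8,8,1), (5,2,10,1), (6,10,8,1)])) (.L [(1,10,10,1), (6,2,10,1), (5,8,2,1)])) (.L [(3,2,10,1), (6,4,8,1), (5,8,2,1), (4,10,4,1)])) (.V 5 (.V 1 (.L [(2,1,2,1), (2,2,5,1), (2,5,1,1)]) (.D 5 1 (.L [(3,1,2,1), (2,2,5,1), (5,5,1,1)]) (.L [(4,1,6,1), (6,5,1,1), (2,5,6,2)])) (.D 9 1 (.D 1 6 (.L [(5,1,6,1), (3,5,1,1), (2,5,6,2)]) (.L [(1,8,8,1), (6,1,6,3), (4,4,6,2), (6,4,8,1), (5,9,1,3)])) (.L [(2,2,5,1), (4,5,1,1), (6,8,2,1), (4,8,9,2),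 (6,9,1,2)]))) (.D 2 5 (.V 3 (.L [(5,2,5,1), (4,3,8,1), (3,5,3,1), (6,8,2,1)]) (.L [(2,3,9,1), (2,5,3,1), (2,9,5,1)]) (.D 5 3 (.L [(3,3,9,1), (5,5,3,1), (2,9,5,1)]) (.L [(1,3,3,1), (5,2,5,1), (6,5,3,1)]))) (.L [(6,2,5,2), (4,4,2,2), (6,4,8,1), (4,8,5,1)])) (.L [(4,2,5,1), (6,8,2,1), (2,8,5,2)]))) (.L [(2,4,2,2), (6,4,8,1), (4,8,2,1)]) (.D 4 2 (.L [(5,4,2,2), (6,4,8,1), (2,8,2,1)]) (.V 10 (.D 10 4 (.L [(6,4,8,2), (5,10,4,2), (4,10,8,1)]) (.L [(4,4,6,1), (6,10,4,1), (2,10,6,2)])) (.D 10 8 (.V 5 (.V 7 (.L [(2,5,6,1), (2,6,7,1), (2,7,5,1)]) (.D 6 7 (.L [(2,5,6,1), (5,6,7,1), (3,7,5,1)]) (.L [(4,4,6,2), (6,4,8,1), (6,6,7,2), (2,7,9,2), (4,8,9,1)])) (.L [(6,4,8,2), (4,7,4,2), (3,7,10,1), (5,10,8,1)])) (.L [(2,5,10,1), (3,8,9,1),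 (2,9,5,1), (5,10,8,1)]) (.D 9 5 (.L [(3,5,10,1), (3,8,9,1), (5,9,5,1), (5,10,8,1)]) (.V 1 (.V 7 (.L [(2,1,6,1), (2,6,7,1), (2,7,1,1)]) (.D 6 7 (.L [(2,1,6,1), (5,6,7,1), (3,7,1,1)]) (.L [(4,5,10,1), (6,6,7,2), (2,7,10,2), (6,9,5,1), (4,9,6,2)])) (.L [(6,4,8,2), (4,7,4,2), (3,7,10,1), (5,10,8,1)])) (.L [(2,4,1,4), (6,4,8,2), (4,5,1,2), (3,5,10,1), (5,10,8,1)]) (.L [(2,1,2,1), (2,2,5,1), (2,5,1,1)])))) (.L [(4,2,10,1), (2,8,2,1), (6,10,8,1)])) (.L [(2,2,10,1), (6,4,2,1), (4,10,4,1)])))))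
def t18 : Tr := (.V 8 t16 (.L [(2,4,8,1), (2,8,9,1), (2,9,4,1)]) t17)
def t19 : Tr := (.V 7 (.D 7 4 (.L [(3,4,6,2), (5,7,4,2), (3,7,9,1), (5,9,6,1)]) (.V 1 (.L [(2,1,6,2), (2,7,1,2), (6,7,4,1), (3,9,4,1), (4,9,4,1), (5,9,6,1)]) (.V 0 (.D 0 4 (.L [(5,0,4,2), (3,0,9,1), (3,4,6,2), (5,9,6,1)]) (.L [(6,0,4,1), (4,1,0,1), (2,4,1,1)])) (.L [(2,0,4,1), (2,1,0,1), (2,4,1,1)]) (.D 1 0 (.L [(3,0,4,1), (5,1,0,1), (2,4,1,1)]) (.L [(2,0,9,1), (6,1,0,1), (4,9,1,1)]))) (.D 4 1 (.L [(5,4,1,1), (2,9,1,2), (3,9,4,1)]) (.D 1 6 (.V 5 (.L [(5,1,6,1), (3,5,1,1), (2,5,6,2)]) (.D 5 1 (.L [(5,5,1,1), (2,9,1,2), (3,9,5,1)]) (.D 7 5 (.L [(6,5,1,2), (4,7,1,1), (5,7,5,2)]) (.V 3 (.D 1 3 (.L [(5,1,3,1), (3,3,9,1), (6,4,1,1), (4,9,4,1)]) (.L [(6,1,3,2),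 (4,5,3,1), (4,7,1,2), (6,7,5,1)])) (.L [(4,1,3,1), (6,5,1,1), (2,5,3,2)]) (.L [(2,1,3,1), (2,3,9,1), (6,4,1,1), (4,9,4,1)])))) (.V 2 (.D 1 2 (.L [(5,1,2,1), (3,2,5,1), (2,5,1,1)]) (.L [(6,1,2,2), (4,4,2,1), (4,7,1,2), (6,7,4,1)])) (.L [(4,1,2,1), (6,4,1,1), (2,4,2,2)]) (.L [(2,1,2,1), (2,2,5,1), (2,5,1,1)]))) (.L [(6,1,6,2), (4,7,1,2), (6,7,4,1), (3,9,4,1), (4,9,4,1), (5,9,6,1)]))))) (.D 6 7 (.V 1 (.L [(2,1,6,1), (5,6,7,1), (3,7,1,1)]) (.V 0 (.D 0 4 (.L [(5,0,4,2), (3,0,9,1), (3,4,6,2), (5,9,6,1)]) (.L [(6,0,4,1), (4,1,0,1), (2,4,1,1)])) (.L [(2,0,4,1), (2,1,0,1), (2,4,1,1)]) (.D 1 0 (.L [(3,0,4,1), (5,1,0,1), (2,4,1,1)]) (.L [(2,0,9,1), (6,1,0,1), (4,9,1,1)]))) (.D 7 1 (.D 4 1 (.L [(5,4,1,1), (2,9,1,2), (3,9,4,1)])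 (.V 0 (.D 1 0 (.L [(3,0,9,1), (5,1,0,1), (6,4,1,1), (4,9,4,1)]) (.L [(1,0,0,1), (6,1,0,1), (5,7,1,1)])) (.D 0 9 (.V 3 (.D 1 3 (.L [(5,0,9,1), (3,1,0,1), (5,1,3,2), (3,3,9,2)]) (.L [(1,3,3,1), (6,1,3,1), (5,7,1,1)])) (.V 10 (.L [(5,6,7,1), (3,7,10,1), (2,10,6,1)]) (.L [(2,0,10,1), (2,3,0,1), (2,10,3,1)]) (.D 0 10 (.L [(5,0,10,1), (2,3,0,1), (3,10,3,1)]) (.L [(5,0,9,2), (6,0,10,1), (3,9,4,2), (4,10,4,1)]))) (.L [(5,0,9,1), (3,3,0,1), (2,3,9,2)])) (.L [(6,0,9,1), (4,1,0,1), (6,4,1,1), (4,9,4,1)])) (.L [(4,0,4,1), (2,1,0,1), (6,4,1,1)]))) (.L [(1,1,1,1), (5,6,7,1), (6,7,1,1)]))) (.L [(6,6,7,1), (2,7,4,1), (3,9,4,1), (4,9,4,1), (5,9,6,1)])) (.L [(3,6,7,1), (2,7,9,1), (5,9,6,1)]))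
def t20 : Tr := (.D 0 4 (.V 1 (.L [(5,0,4,1), (2,1,0,1), (3,4,1,1)]) (.V 2 (.L [(5,0,4,1), (2,2,0,1), (3,4,2,1)]) (.V 10 (.D 7 10 (.V 3 (.L [(2,0,10,1), (2,3,0,1), (2,10,3,1)]) (.D 10 3 (.L [(2,0,10,1), (3,3,0,1), (5,10,3,1)]) (.L [(1,3,3,3), (5,0,4,1), (3,7,4,2), (5,7,10,4), (6,10,3,3)])) (.D 1 3 (.L [(5,0,4,1), (3,1,0,1), (5,1,3,2), (3,7,4,2), (5,7,10,4), (3,10,3,4)]) (.L [(6,1,3,1), (2,3,9,1), (4,9,1,1)]))) (.L [(4,6,7,1), (6,7,10,1), (2,10,6,1)])) (.L [(5,0,4,1), (3,2,0,1), (2,2,10,2), (2,10,4,2)]) (.D 10 6 (.L [(5,0,4,2), (3,0,10,1), (3,4,6,2), (5,10,6,1)]) (.D 2 10 (.L [(4,1,0,2), (3,1,6,1), (3,2,0,4), (5,2,10,8), (3,4,6,3), (4,4,6,6), (6,10,6,8)]) (.V 5 (.D 5 1 (.D 9 5 (.V 8 (.L [(5,0,4,2), (3,0,9,1), (3,4,8,2),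 (2,8,5,2), (5,9,5,1)]) (.D 8 9 (.L [(4,0,10,1), (3,1,0,9), (4,1,6,18), (4,2,0,4), (6,2,10,2), (3,8,5,26), (5,8,9,52), (5,9,5,13), (6,9,6,36)]) (.L [(3,5,10,1), (6,8,9,1), (5,9,5,1), (4,10,8,1)])) (.L [(6,2,10,1), (4,8,2,1), (2,10,8,1)])) (.L [(4,0,9,1), (3,1,0,1), (5,5,1,1), (6,9,5,1)])) (.L [(4,1,6,1), (4,2,5,8), (6,2,10,4), (6,5,1,9), (4,5,10,2), (4,9,1,4), (6,9,6,2)])) (.L [(2,1,2,1), (2,2,5,1), (2,5,1,1)]) (.V 3 (.D 5 3 (.L [(3,3,9,1), (5,5,3,1), (2,9,5,1)]) (.L [(4,0,10,1), (2,3,0,1), (6,5,3,1), (2,5,10,2)])) (.D 3 9 (.L [(4,0,10,2), (3,1,0,5), (4,1,6,10), (4,2,0,8), (6,2,10,4), (3,3,0,13), (5,3,9,26), (6,9,6,20)]) (.L [(6,3,9,1), (4,5,3,1), (2,9,5,1)])) (.L [(2,3,9,1), (2,5,10,1), (2,9,5,1), (2,10,3,1)]))))))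 (.D 4 2 (.D 1 2 (.D 2 0 (.V 10 (.D 10 4 (.D 7 10 (.V 3 (.L [(2,0,10,1), (2,3,0,1), (2,10,3,1)]) (.D 10 3 (.L [(2,0,10,1), (3,3,0,1), (5,10,3,1)]) (.L [(1,3,3,1), (5,7,10,1), (6,10,3,1)])) (.D 1 3 (.L [(2,0,10,1), (3,1,0,1), (5,1,3,2), (3,7,4,2), (5,7,10,4), (3,10,3,4), (5,10,4,1)]) (.L [(6,1,3,1), (2,3,9,1), (4,9,1,1)]))) (.L [(3,4,6,1), (4,6,7,1), (6,7,10,1), (5,10,4,1)])) (.L [(4,4,6,1), (6,10,4,1), (2,10,6,2)])) (.L [(5,0,4,1), (3,1,0,1), (5,1,2,2), (3,2,10,2), (2,10,4,2)]) (.D 10 6 (.L [(5,0,4,2), (3,0,10,1), (3,4,6,2), (5,10,6,1)]) (.V 5 (.D 5 1 (.D 9 5 (.V 8 (.L [(5,4,2,3), (4,4,6,1), (3,4,8,2), (3,8,2,6), (2,8,5,14), (5,9,5,7), (6,9,6,2)]) (.D 8 9 (.L [(3,1,0,2), (4,1,6,4), (5,2,0,1), (3,8,5,6), (5,8,9,12), (5,9,5,3),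 (6,9,6,8)]) (.L [(3,5,10,1), (6,8,9,1), (5,9,5,1), (4,10,8,1)])) (.L [(3,1,0,2), (5,1,2,3), (4,1,6,1), (5,2,0,1), (2,8,2,7), (6,10,6,2), (2,10,8,4)])) (.L [(4,0,9,1), (3,1,0,1), (5,5,1,1), (6,9,5,1)])) (.L [(4,1,6,1), (6,5,1,1), (2,5,6,2)])) (.L [(5,1,2,1), (3,2,5,1), (2,5,1,1)]) (.V 3 (.D 5 3 (.L [(3,3,9,1), (5,5,3,1), (2,9,5,1)]) (.L [(4,0,10,1), (2,3,0,1), (6,5,3,1), (2,5,10,2)])) (.D 3 9 (.L [(3,1,0,1), (4,1,6,2), (5,2,0,2), (3,3,0,3), (5,3,9,6), (6,9,6,4)]) (.L [(6,3,9,1), (4,5,3,1), (2,9,5,1)])) (.L [(2,3,9,1), (2,5,10,1), (2,9,5,1), (2,10,3,1)]))))) (.L [(5,0,4,4), (5,1,2,4), (3,1,6,2), (6,2,0,4), (4,4,6,1)])) (.L [(6,1,2,8), (4,1,6,2), (5,4,2,4), (3,4,6,2), (4,9,1,7), (6,9,6,2)])) (.L [(1,2,2,3), (5,0,4,3),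 (3,0,9,2), (4,0,9,1), (6,4,2,3)]))) (.D 4 1 (.L [(5,4,1,1), (3,4,6,1), (4,4,6,1), (2,9,1,2), (6,9,6,1)]) (.L [(1,1,1,3), (5,0,4,3), (3,0,9,2), (4,0,9,1), (6,4,1,3)]))) (.L [(6,0,4,1), (4,0,9,2), (4,4,6,1), (6,9,6,2)]))
def t21 : Tr := (.V 1 (.D 9 1 (.L [(2,0,9,1), (3,1,0,1), (5,9,1,1)]) (.D 7 1 (.V 2 (.V 5 (.L [(2,1,2,1), (2,2,5,1), (2,5,1,1)]) (.V 10 (.D 2 5 (.L [(2,1,2,1), (5,2,5,1), (3,5,1,1)]) (.L [(6,2,5,1), (2,2,10,2), (4,5,6,1), (2,10,6,2)])) (.D 2 10 (.L [(2,1,2,1), (5,2,10,1), (3,5,1,1), (2,5,10,2)]) (.L [(6,2,10,1), (4,4,2,1), (2,10,4,1)])) (.D 5 10 (.L [(2,0,10,2), (3,1,0,2), (5,5,10,1), (5,7,1,2), (3,7,5,1)]) (.L [(2,1,2,1), (4,2,10,1), (6,5,10,2), (6,9,1,1), (4,9,5,2)]))) (.L [(2,1,2,1), (4,2,5,1), (6,9,1,1),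 (2,9,5,2)])) (.D 1 2 (.L [(5,1,2,1), (3,4,1,1), (2,4,2,2)]) (.L [(1,2,2,1), (6,1,2,1), (5,7,1,1)])) (.D 4 2 (.L [(3,1,2,2), (5,4,2,1), (5,7,1,2), (3,7,4,1)]) (.L [(4,1,0,1), (2,2,0,2), (6,4,2,2), (6,9,1,1), (4,9,4,2)]))) (.L [(2,1,6,1), (4,6,7,1), (6,7,1,1)]))) (.D 1 0 (.L [(3,0,4,1), (5,1,0,1), (2,4,1,1)]) (.L [(2,0,9,1), (6,1,0,1), (4,9,1,1)])) (.L [(2,0,9,1), (2,1,0,1), (2,9,1,1)]))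
def t22 : Tr := (.V 0 t20 (.D 0 9 (.L [(5,0,9,3), (3,4,6,1), (4,4,6,2), (6,9,6,3)]) (.L [(2,0,4,2), (6,0,9,1), (4,9,4,1)])) t21)
def t23 : Tr := (.V 7 (.L [(2,6,7,1), (4,7,9,1), (6,9,6,1)]) (.D 7 9 (.L [(3,4,6,1), (4,4,6,2), (5,7,9,3), (6,9,6,3)]) (.L [(2,7,4,2), (6,7,9,1), (4,9,4,1)])) t22)
def t24 : Tr := (.D 9 6 t19 t23)
def t25 : Tr := (.V 9 t15 t18 t24)
def t26 : Tr := (.D 7 10 (.L [(5,4,6,1), (3,7,4,1), (5,7,10,2), (3,10,6,2)]) (.D 10 4 (.V 1 (.L [(1,10,10,1), (2,1,6,2), (5,4,6,1), (2,7,1,2), (6,7,10,1)]) (.V 0 (.D 0 10 (.L [(3,0,4,1), (5,0,10,2), (5,4,6,1), (3,10,6,2)]) (.L [(6,0,10,1), (4,1,0,1), (3,4,1,1), (5,10,4,1)])) (.L [(2,0,10,1), (2,1,0,1), (3,4,1,1), (5,10,4,1)]) (.L [(2,0,4,2), (3,0,10,1), (5,10,4,1)]))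 (.D 1 6 (.V 5 (.L [(1,10,10,1), (5,1,6,1), (2,5,6,2), (2,7,5,2), (6,7,10,1)]) (.D 7 5 (.L [(1,10,10,1), (5,1,6,1), (3,5,6,2), (5,7,5,2), (6,7,10,1)]) (.V 9 (.L [(1,5,5,1), (5,1,6,1), (6,7,5,1), (2,7,9,2), (2,9,6,2)]) (.D 7 9 (.L [(1,5,5,1), (5,1,6,1), (6,7,5,1), (5,7,9,2), (3,9,6,2)]) (.D 9 1 (.V 0 (.D 1 0 (.L [(3,0,4,1), (5,1,0,1), (2,4,1,1)]) (.L [(1,0,0,1), (6,1,0,1), (5,9,1,1)])) (.L [(2,0,9,1), (3,1,0,1), (5,9,1,1)]) (.L [(2,0,4,2), (3,0,9,1), (2,4,1,2), (5,9,1,1)])) (.V 3 (.D 3 9 (.L [(5,3,9,6), (4,7,1,4), (6,7,9,2), (6,9,1,5)]) (.L [(6,3,9,1), (2,5,10,1), (2,9,5,1), (4,10,3,1)])) (.L [(4,1,3,1), (2,5,3,2), (6,9,1,1), (2,9,5,2)]) (.L [(2,1,3,1), (4,3,9,1), (6,9,1,1)])))) (.L [(2,5,10,1), (2,9,4,2), (3,9,5,1),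 (5,10,4,1)]))) (.V 2 (.D 1 2 (.L [(5,1,2,1), (3,2,5,1), (2,5,1,1)]) (.D 4 2 (.L [(6,1,2,6), (5,4,2,3), (3,5,10,1), (4,5,10,2), (4,7,1,6), (6,7,10,3)]) (.L [(1,2,2,1), (6,4,2,1), (5,10,4,1)]))) (.L [(2,2,10,1), (3,4,2,1), (5,10,4,1)]) (.L [(2,1,2,1), (2,2,5,1), (2,5,1,1)]))) (.L [(1,10,10,1), (6,1,6,2), (5,4,6,1), (4,7,1,2), (6,7,10,1)]))) (.V 9 (.L [(5,4,6,1), (3,9,4,1), (2,9,6,2)]) (.D 7 9 (.L [(5,7,9,2), (6,7,10,1), (3,9,6,2), (4,10,6,1)]) (.D 9 4 (.V 1 (.L [(1,9,9,1), (2,1,6,2), (5,4,6,1), (2,7,1,2), (6,7,9,1)]) (.V 0 (.D 0 9 (.L [(3,0,4,1), (5,0,9,2), (5,4,6,1), (3,9,6,2)]) (.L [(6,0,9,1), (4,1,0,1), (3,4,1,1), (5,9,4,1)])) (.L [(2,0,9,1), (2,1,0,1), (3,4,1,1), (5,9,4,1)]) (.L [(3,0,9,1), (4,0,10,2), (5,9,4,1),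 (6,10,4,2)])) (.D 1 6 (.D 9 1 (.V 0 (.D 1 0 (.L [(3,0,4,1), (5,1,0,1), (2,4,1,1)]) (.L [(1,0,0,1), (6,1,0,1), (5,9,1,1)])) (.L [(2,0,9,1), (3,1,0,1), (5,9,1,1)]) (.L [(2,0,4,2), (3,0,9,1), (2,4,1,2), (5,9,1,1)])) (.V 3 (.D 3 9 (.L [(5,3,9,6), (4,7,1,4), (6,7,9,2), (6,9,1,5)]) (.L [(1,9,9,3), (6,3,9,4), (5,9,4,1), (4,10,3,4), (6,10,4,2)])) (.L [(4,1,3,1), (6,9,1,1), (5,9,4,2), (2,10,3,2), (6,10,4,1)]) (.L [(2,1,3,1), (4,3,9,1), (6,9,1,1)]))) (.L [(1,9,9,1), (6,1,6,2), (5,4,6,1), (4,7,1,2), (6,7,9,1)]))) (.V 1 (.L [(2,1,6,2), (2,7,1,2), (6,7,9,1), (4,9,6,1)]) (.L [(4,4,1,1), (2,9,1,2), (6,9,4,1)]) (.D 9 1 (.L [(2,4,1,4), (5,9,1,2), (6,9,4,1)]) (.V 3 (.D 3 9 (.L [(5,3,9,6), (4,7,1,4), (6,7,9,2), (6,9,1,5)]) (.D 1 3 (.L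 [(1,9,9,1), (5,1,3,1), (6,3,9,1)]) (.L [(6,1,3,2), (4,7,1,2), (6,7,10,1), (4,10,3,1)]))) (.L [(4,1,3,1), (2,4,1,1), (2,10,3,2), (6,10,4,1)]) (.L [(2,1,3,1), (4,3,9,1), (6,9,1,1)])))))) (.V 8 (.D 4 8 (.L [(5,4,8,1), (3,8,9,1), (2,9,4,1)]) (.L [(6,4,8,2), (4,7,4,2), (6,7,10,1), (4,10,8,1)])) (.L [(4,4,8,1), (6,10,4,1), (2,10,8,2)]) (.L [(2,4,8,1), (2,8,9,1), (2,9,4,1)])))))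
def t27 : Tr := (.D 7 5 (.L [(5,4,6,1), (3,5,6,2), (3,7,4,1), (5,7,5,2)]) (.D 5 10 (.V 1 (.L [(1,5,5,1), (2,1,6,2), (5,4,6,1), (2,7,1,2), (6,7,5,1)]) (.V 2 (.D 2 5 (.L [(5,2,5,2), (3,2,10,1), (5,4,6,1), (3,5,6,2), (2,10,4,1)]) (.L [(4,1,2,1), (6,2,5,1), (2,5,1,1)])) (.L [(2,1,2,1), (2,2,5,1), (2,5,1,1)]) (.L [(3,2,5,1), (2,2,10,2), (5,5,10,1)])) (.D 1 6 (.D 5 1 (.V 2 (.D 1 2 (.L [(5,1,2,1), (3,2,10,1), (2,4,1,1), (2,10,4,1)]) (.L [(1,2,2,1), (6,1,2,1), (5,5,1,1)])) (.L [(3,1,2,1), (2,2,5,1), (5,5,1,1)]) (.L [(3,2,5,1), (2,2,10,2), (2,4,1,2), (5,5,1,1), (2,10,4,2)])) (.V 9 (.L [(5,1,6,1), (3,9,1,1), (2,9,6,2)]) (.D 7 9 (.L [(4,5,6,1), (6,7,5,1), (5,7,9,2), (3,9,6,2)]) (.D 9 1 (.V 0 (.D 1 0 (.L [(3,0,4,1), (5,1,0,1),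 (2,4,1,1)]) (.L [(1,0,0,1), (6,1,0,1), (5,9,1,1)])) (.L [(2,0,9,1), (3,1,0,1), (5,9,1,1)]) (.L [(3,0,9,5), (4,0,9,2), (2,0,10,8), (6,5,1,2), (5,5,10,4), (5,9,1,1)])) (.V 3 (.D 3 9 (.L [(5,3,9,6), (4,7,1,4), (6,7,9,2), (6,9,1,5)]) (.L [(6,3,9,1), (4,5,3,1), (2,9,5,1)])) (.L [(4,1,3,1), (6,5,1,1), (2,5,3,2)]) (.L [(2,1,3,1), (4,3,9,1), (6,9,1,1)])))) (.V 3 (.D 1 3 (.L [(5,1,3,1), (3,3,9,1), (6,5,1,1), (4,9,5,1)]) (.L [(6,1,3,2), (4,5,3,1), (4,7,1,2), (6,7,5,1)])) (.L [(4,1,3,1), (6,5,1,1), (2,5,3,2)]) (.L [(2,1,3,1), (2,3,9,1), (6,5,1,1), (4,9,5,1)])))) (.L [(1,5,5,1), (6,1,6,2), (5,4,6,1), (4,7,1,2), (6,7,5,1)]))) (.V 1 (.L [(2,1,6,2), (4,5,6,1), (2,7,1,2), (6,7,5,1)]) (.L [(4,4,1,1), (2,5,1,2), (6,5,10,1), (2,10,4,1)])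 (.D 1 6 (.D 5 1 (.L [(2,4,1,4), (5,5,1,2), (6,5,10,1), (2,10,4,1)]) (.V 9 (.L [(5,1,6,1), (3,9,1,1), (2,9,6,2)]) (.D 7 9 (.L [(4,5,6,1), (6,7,5,1), (5,7,9,2), (3,9,6,2)]) (.D 9 1 (.V 0 (.D 1 0 (.L [(3,0,4,1), (5,1,0,1), (2,4,1,1)]) (.L [(1,0,0,1), (6,1,0,1), (5,9,1,1)])) (.L [(2,0,9,1), (3,1,0,1), (5,9,1,1)]) (.L [(2,0,4,2), (3,0,9,1), (2,4,1,2), (5,9,1,1)])) (.V 3 (.D 3 9 (.L [(5,3,9,6), (4,7,1,4), (6,7,9,2), (6,9,1,5)]) (.L [(6,3,9,1), (4,5,3,1), (2,9,5,1)])) (.L [(4,1,3,1), (6,5,1,1), (2,5,3,2)]) (.L [(2,1,3,1), (4,3,9,1), (6,9,1,1)])))) (.V 3 (.D 1 3 (.L [(5,1,3,1), (3,3,9,1), (6,5,1,1), (4,9,5,1)]) (.L [(6,1,3,2), (4,5,3,1), (4,7,1,2), (6,7,5,1)])) (.L [(4,1,3,1), (6,5,1,1), (2,5,3,2)]) (.L [(2,1,3,1), (2,3,9,1),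 (6,5,1,1), (4,9,5,1)])))) (.L [(6,1,6,2), (4,5,6,1), (4,7,1,2), (6,7,5,1)])))))
def t28 : Tr := (.V 1 (.L [(2,1,6,2), (5,4,6,1), (2,7,1,2), (3,7,4,1)]) (.D 7 1 (.L [(3,1,6,2), (5,4,6,1), (5,7,1,2), (3,7,4,1)]) (.V 2 (.D 4 2 (.L [(3,2,10,1), (5,4,2,1), (2,10,4,1)]) (.L [(4,1,2,1), (6,4,2,2), (6,7,1,1), (4,7,4,2)])) (.D 2 5 (.L [(2,1,2,1), (5,2,5,1), (3,5,1,1)]) (.L [(6,2,5,1), (4,4,2,1), (2,5,10,1), (2,10,4,1)])) (.L [(2,2,5,1), (2,4,2,1), (2,5,10,1), (2,10,4,1)]))) (.D 1 6 (.V 9 (.L [(5,1,6,1), (3,9,1,1), (2,9,6,2)]) (.D 7 9 (.L [(5,1,6,1), (3,7,1,1), (5,7,9,2), (3,9,6,2)]) (.D 9 1 (.V 8 (.D 4 8 (.L [(5,4,8,1), (2,5,10,1), (3,8,5,1), (2,10,4,1)]) (.L [(1,8,8,1), (2,4,1,2), (6,4,8,1), (5,9,1,1)])) (.L [(2,4,1,2), (3,4,8,1),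 (2,8,9,1), (5,9,1,1)]) (.L [(2,5,1,2), (2,8,5,2), (3,8,9,1), (5,9,1,1)])) (.D 9 4 (.V 2 (.D 4 2 (.L [(3,2,5,1), (5,4,2,1), (2,5,10,1), (2,10,4,1)]) (.L [(1,2,2,15), (6,4,2,9), (4,7,1,2), (6,7,9,1), (6,9,1,4), (5,9,4,9)])) (.L [(4,1,2,1), (3,4,2,2), (6,9,1,1), (5,9,4,2)]) (.L [(1,9,9,3), (2,1,2,2), (2,2,5,2), (2,5,10,2), (6,9,1,2), (5,9,4,1), (2,10,4,2)])) (.D 9 5 (.V 3 (.D 3 9 (.L [(5,3,9,6), (4,7,1,4), (6,7,9,2), (6,9,1,5)]) (.D 5 3 (.L [(1,9,9,1), (6,3,9,1), (5,5,3,1)]) (.L [(1,3,3,15), (6,5,3,9), (4,7,1,2), (6,7,9,1), (6,9,1,4), (5,9,5,9)]))) (.L [(4,1,3,1), (3,5,3,2), (6,9,1,1), (5,9,5,2)]) (.L [(2,1,3,1), (4,3,9,1), (6,9,1,1)])) (.V 8 (.D 10 8 (.L [(2,5,10,1), (3,8,5,1), (5,10,8,1)]) (.V 2 (.L [(4,2,10,1), (2,8,2,1),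 (6,10,8,1)]) (.D 2 10 (.L [(1,8,8,1), (5,2,10,1), (6,10,8,1)]) (.L [(4,1,2,1), (6,2,10,1), (2,4,1,1), (2,10,4,1)])) (.L [(2,2,5,2), (2,4,2,2), (4,8,5,1), (2,10,4,2), (6,10,8,1)]))) (.D 8 5 (.V 3 (.D 3 9 (.L [(5,3,9,3), (5,8,5,1), (6,9,5,2)]) (.D 5 3 (.L [(1,9,9,1), (6,3,9,1), (5,5,3,1)]) (.L [(1,3,3,1), (6,5,3,1), (5,8,5,1)]))) (.L [(2,3,8,1), (3,5,3,1), (5,8,5,1)]) (.L [(3,3,8,1), (4,3,9,2), (5,8,5,1), (6,9,5,2)])) (.L [(4,4,8,1), (2,5,10,1), (6,8,5,1), (2,10,4,1)])) (.L [(2,4,8,1), (4,8,9,1), (6,9,4,1)])))))) (.V 8 (.D 4 8 (.L [(5,4,8,1), (2,5,10,1), (3,8,5,1), (2,10,4,1)]) (.D 10 8 (.L [(2,4,1,4), (6,4,8,2), (2,5,10,1), (4,7,1,2), (3,7,5,1), (5,10,8,1)]) (.V 2 (.L [(4,2,10,1), (2,8,2,1), (6,10,8,1)]) (.D 2 10 (.L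 [(1,8,8,1), (5,2,10,1), (6,10,8,1)]) (.L [(4,1,2,1), (6,2,10,1), (2,4,1,1), (2,10,4,1)])) (.L [(2,4,2,2), (6,4,8,1), (4,8,2,1)])))) (.D 8 9 (.D 8 5 (.V 3 (.D 5 3 (.L [(3,3,9,1), (5,5,3,1), (2,9,5,1)]) (.L [(1,3,3,1), (6,5,3,1), (5,8,5,1)])) (.L [(2,3,8,1), (3,5,3,1), (5,8,5,1)]) (.L [(3,3,8,1), (2,3,9,2), (5,8,9,1)])) (.L [(4,4,8,1), (2,5,10,1), (6,8,5,1), (2,10,4,1)])) (.L [(4,4,8,1), (6,8,9,1), (2,9,4,1)])) (.L [(2,4,8,1), (2,5,10,1), (2,8,5,1), (2,10,4,1)]))) (.L [(6,1,6,2), (5,4,6,1), (4,7,1,2), (3,7,4,1)])))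
def t29 : Tr := (.V 5 (.L [(5,4,6,1), (2,5,6,2), (3,5,10,1), (2,10,4,1)]) t27 t28)
def t30 : Tr := (.V 10 (.L [(5,4,6,1), (3,10,4,1), (2,10,6,2)]) t26 t29)
def t31 : Tr := (.D 10 4 (.V 1 (.L [(2,1,6,1), (5,6,7,1), (3,7,1,1)]) (.V 0 (.D 0 10 (.L [(3,0,4,1), (5,0,10,2), (5,4,6,1), (3,10,6,2)]) (.L [(6,0,10,1), (4,1,0,1), (3,4,1,1), (5,10,4,1)])) (.L [(2,0,10,1), (2,1,0,1), (3,4,1,1), (5,10,4,1)]) (.L [(2,0,4,2), (3,0,10,1), (5,10,4,1)])) (.D 7 1 (.D 1 6 (.V 0 (.D 1 0 (.L [(3,0,4,1), (5,1,0,1), (2,4,1,1)]) (.L [(1,0,0,1), (6,1,0,1), (5,7,1,1)])) (.V 9 (.L [(5,1,6,1), (3,9,1,1), (2,9,6,2)]) (.D 9 1 (.L [(2,0,9,1), (3,1,0,1), (5,9,1,1)]) (.V 3 (.D 3 0 (.D 1 3 (.D 3 9 (.L [(5,3,9,3), (5,7,1,1), (6,9,1,2)]) (.L [(1,9,9,3),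 (3,1,0,2), (5,1,3,4), (5,3,0,1), (6,3,9,3)])) (.L [(6,1,3,2), (5,7,1,2), (4,10,3,1)])) (.L [(2,0,10,1), (6,3,0,1), (4,10,3,1)])) (.L [(2,0,10,1), (2,3,0,1), (2,10,3,1)]) (.L [(2,1,3,1), (4,3,9,1), (6,9,1,1)]))) (.V 3 (.D 1 3 (.L [(2,0,10,1), (3,1,0,1), (5,1,3,2), (3,3,9,2), (2,9,4,2), (5,10,4,1)]) (.L [(6,1,3,2), (5,7,1,2), (4,10,3,1)])) (.L [(2,0,10,1), (2,3,0,1), (2,10,3,1)]) (.L [(2,0,10,1), (3,3,0,1), (2,3,9,2), (2,9,4,2), (5,10,4,1)]))) (.L [(2,0,4,2), (3,0,10,1), (5,10,4,1)])) (.L [(6,1,6,1), (5,4,6,1), (5,7,1,1)])) (.L [(1,1,1,1), (5,6,7,1), (6,7,1,1)]))) (.V 5 (.L [(2,5,6,1), (5,6,7,1), (3,7,5,1)]) (.V 1 (.L [(2,1,6,1), (5,6,7,1), (3,7,1,1)]) (.V 2 (.D 4 2 (.D 2 10 (.L [(5,2,10,3), (5,7,4,1), (6,10,4,2)]) (.L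 [(1,10,10,3), (6,2,10,3), (3,4,1,2), (4,4,1,1), (5,4,2,3)])) (.L [(4,1,2,2), (3,1,6,1), (6,4,2,4), (5,4,6,2), (5,7,4,3)])) (.L [(2,1,2,1), (2,2,5,1), (2,5,1,1)]) (.L [(4,2,10,1), (2,4,2,1), (6,10,4,1)])) (.D 7 1 (.V 0 (.D 1 0 (.L [(3,0,4,1), (5,1,0,1), (2,4,1,1)]) (.L [(1,0,0,1), (6,1,0,1), (5,7,1,1)])) (.D 0 4 (.V 2 (.D 2 10 (.L [(5,0,4,1), (5,2,10,1), (6,10,4,1)]) (.D 4 2 (.L [(1,10,10,1), (6,2,10,1), (5,4,2,1)]) (.L [(1,2,2,1), (5,0,4,1), (6,4,2,1)]))) (.L [(5,0,4,1), (2,2,0,1), (3,4,2,1)]) (.L [(5,0,4,1), (3,2,0,1), (4,2,10,2), (6,10,4,2)])) (.L [(6,0,4,1), (4,1,0,1), (2,4,1,1)])) (.L [(4,0,10,1), (2,1,0,1), (2,4,1,1), (6,10,4,1)])) (.L [(1,1,1,1), (5,6,7,1), (6,7,1,1)]))) (.V 8 (.D 4 8 (.L [(5,4,8,1), (4,5,10,1),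 (3,8,5,1), (6,10,4,1)]) (.L [(6,4,8,8), (5,7,4,9), (6,10,4,2), (4,10,8,4)])) (.L [(4,4,8,1), (6,10,4,1), (2,10,8,2)]) (.L [(2,4,8,1), (4,5,10,1), (2,8,5,1), (6,10,4,1)]))))
def t32 : Tr := (.V 2 (.D 4 2 (.L [(3,2,10,1), (5,4,2,1), (2,10,4,1)]) (.L [(1,2,2,1), (6,4,2,1), (5,7,4,1)])) (.D 2 10 (.V 5 (.L [(5,2,10,1), (3,4,2,1), (5,4,6,2), (2,5,6,4), (3,5,10,2)]) (.V 1 (.L [(2,1,6,1), (5,6,7,1), (3,7,1,1)]) (.L [(2,1,2,1), (2,2,5,1), (2,5,1,1)]) (.D 7 1 (.V 0 (.D 1 0 (.L [(3,0,10,2), (5,1,0,2), (3,1,2,1), (5,2,10,1)]) (.L [(4,0,4,1), (6,1,0,3), (4,2,0,1), (3,4,2,1), (5,7,1,3)])) (.D 0 4 (.L [(5,0,4,1), (2,2,0,1), (3,4,2,1)]) (.L [(6,0,4,1), (4,1,0,1), (2,4,1,1)])) (.L [(2,0,10,2), (2,1,0,2), (3,1,2,1), (5,2,10,1)])) (.L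 [(4,1,2,1), (3,4,2,2), (6,7,1,1), (5,7,4,2)]))) (.V 8 (.D 10 8 (.L [(2,5,10,1), (3,8,5,1), (5,10,8,1)]) (.L [(1,8,8,1), (5,2,10,1), (6,10,8,1)])) (.L [(5,2,10,1), (2,8,2,1), (3,10,8,1)]) (.L [(5,2,10,1), (2,5,10,2), (3,8,2,1), (2,8,5,2)]))) (.L [(6,2,10,1), (4,4,2,1), (2,10,4,1)])) (.L [(2,2,10,1), (2,4,2,1), (2,10,4,1)]))
def t33 : Tr := (.V 10 (.L [(5,4,6,1), (3,10,4,1), (2,10,6,2)]) t31 t32)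
def t34 : Tr := (.D 7 4 t33 (.L [(1,4,4,1), (5,6,7,1), (6,7,4,1)]))
def t35 : Tr := (.D 6 7 t34 (.L [(1,7,7,1), (5,4,6,1), (6,6,7,1)]))
def t36 : Tr := (.V 7 t30 t35 (.L [(5,4,6,1), (3,6,7,1), (2,7,4,1)]))
def t37 : Tr := (.D 7 4 (.L [(1,6,6,1), (6,4,6,1), (5,7,4,1)]) (.D 6 7 (.L [(1,4,4,3), (6,4,6,1), (5,6,7,1), (6,7,4,1)]) (.V 9 (.V 1 (.D 4 1 (.L [(5,4,1,1), (2,9,1,2), (3,9,4,1)]) (.V 5 (.V 2 (.L [(2,1,2,1), (2,2,5,1), (2,5,1,1)]) (.D 1 2 (.L [(5,1,2,1), (3,2,5,1), (2,5,1,1)]) (.L [(6,1,2,2), (4,4,2,1), (4,7,1,2), (6,7,4,1)])) (.L [(4,1,2,1), (6,4,1,1), (2,4,2,2)])) (.L [(4,5,6,1), (6,6,7,1), (2,7,5,1)]) (.D 5 6 (.L [(5,5,6,1), (6,6,7,1), (4,7,1,1), (2,9,1,2), (3,9,5,1)]) (.D 7 5 (.L [(1,6,6,1), (6,5,6,1), (5,7,5,1)])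 (.V 3 (.L [(2,1,3,1), (2,3,9,1), (2,9,1,1)]) (.D 1 3 (.L [(5,1,3,1), (3,3,9,1), (2,9,1,1)]) (.L [(6,1,3,2), (4,5,3,1), (4,7,1,2), (6,7,5,1)])) (.D 3 9 (.L [(5,3,9,1), (2,5,3,1), (3,9,5,1)]) (.L [(4,1,3,1), (6,3,9,1), (2,9,1,1)]))))))) (.L [(4,4,1,1), (2,7,1,2), (6,7,4,1)]) (.V 0 (.D 1 0 (.L [(3,0,4,1), (5,1,0,1), (2,4,1,1)]) (.L [(2,0,9,1), (6,1,0,1), (4,9,1,1)])) (.D 0 4 (.L [(1,6,6,4), (5,0,4,4), (3,0,9,2), (6,4,6,4), (4,7,9,1)]) (.L [(6,0,4,1), (4,1,0,1), (2,4,1,1)])) (.L [(2,0,4,1), (2,1,0,1), (2,4,1,1)]))) (.L [(6,6,7,1), (2,7,9,1), (4,9,6,1)]) (.D 9 6 (.L [(1,7,7,1), (6,6,7,1), (5,9,6,1)]) (.D 7 9 (.L [(1,4,4,1), (1,6,6,1), (6,7,4,1), (5,7,9,2), (6,9,6,1)]) (.V 8 (.D 4 8 (.L [(5,4,8,1), (3,8,9,1), (2,9,4,1)])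 (.V 1 (.D 9 1 (.V 5 (.L [(2,5,1,2), (2,8,5,2), (3,8,9,1), (5,9,1,1)]) (.L [(2,7,5,2), (6,7,9,1), (4,9,5,1)]) (.V 3 (.D 5 3 (.L [(3,3,9,1), (5,5,3,1), (2,9,5,1)]) (.L [(2,3,8,1), (6,5,3,1), (4,8,5,1)])) (.D 3 9 (.L [(1,6,6,3), (3,3,8,2), (4,3,8,1), (5,3,9,3), (6,9,6,3)]) (.L [(6,3,9,1), (4,5,3,1), (2,9,5,1)])) (.L [(2,3,9,1), (2,5,3,1), (2,9,5,1)]))) (.D 4 1 (.L [(5,4,1,2), (6,4,8,1), (4,8,9,1), (6,9,1,1)]) (.V 5 (.V 2 (.L [(2,1,2,1), (2,2,5,1), (2,5,1,1)]) (.D 1 2 (.L [(5,1,2,1), (3,2,5,1), (2,5,1,1)]) (.L [(6,1,2,4), (4,4,2,2), (6,4,8,1), (4,7,1,4), (6,7,9,2), (4,8,9,1)])) (.L [(4,1,2,1), (6,4,1,1), (2,4,2,2)])) (.L [(2,7,5,2), (6,7,9,1), (4,9,5,1)]) (.V 2 (.L [(2,1,2,1), (4,2,5,1), (6,9,1,1), (2,9,5,2)]) (.D 2 5 (.L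 [(5,2,5,6), (4,7,1,2), (6,7,9,1), (6,9,1,4), (2,9,5,9)]) (.L [(6,2,5,2), (4,4,2,2), (6,4,8,1), (4,8,5,1)])) (.L [(4,1,2,1), (6,4,1,1), (2,4,2,2)]))))) (.L [(4,4,1,2), (6,4,8,1), (2,7,1,4), (6,7,9,2), (4,8,9,1)]) (.V 5 (.L [(2,4,1,2), (6,4,8,1), (4,5,1,1), (2,8,5,1)]) (.L [(2,7,5,2), (6,7,9,1), (4,9,5,1)]) (.V 3 (.D 5 3 (.L [(3,3,9,1), (5,5,3,1), (2,9,5,1)]) (.L [(2,3,8,1), (6,5,3,1), (4,8,5,1)])) (.D 3 9 (.L [(1,6,6,3), (3,3,8,2), (4,3,8,1), (5,3,9,3), (6,9,6,3)]) (.L [(4,1,3,2), (6,3,9,2), (2,4,1,2), (6,4,8,1), (4,8,5,1), (2,9,5,2)])) (.L [(2,1,3,2), (2,3,9,2), (2,4,1,2), (6,4,8,1), (4,8,5,1), (2,9,5,2)]))))) (.D 8 9 (.L [(1,6,6,1), (5,8,9,1), (6,9,6,1)]) (.L [(4,4,8,1), (6,8,9,1), (2,9,4,1)])) (.L [(2,4,8,1), (2,8,9,1),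 (2,9,4,1)])))))))
def t38 : Tr := (.D 7 10 (.V 1 (.D 7 1 (.D 4 1 (.V 9 (.L [(5,4,1,1), (2,9,1,2), (3,9,4,1)]) (.D 9 4 (.L [(5,4,1,1), (6,4,6,2), (3,9,1,2), (5,9,4,3), (4,9,6,1)]) (.V 0 (.D 0 9 (.L [(3,0,4,1), (4,0,4,1), (5,0,9,1), (6,9,4,1)]) (.L [(6,0,9,1), (2,0,10,2), (3,7,9,1), (4,7,9,1), (5,7,10,1)])) (.D 0 4 (.L [(5,0,4,16), (3,0,10,8), (6,4,6,8), (3,7,9,2), (5,7,10,4), (6,9,4,1), (4,9,6,4)]) (.D 1 0 (.L [(6,0,4,2), (5,1,0,2), (4,10,4,1)]) (.L [(1,0,0,1), (6,1,0,1), (5,4,1,1)]))) (.L [(4,0,9,1), (3,1,0,1), (5,4,1,1), (6,9,4,1)]))) (.D 9 6 (.L [(3,6,7,1), (2,7,9,1), (5,9,6,1)]) (.V 8 (.D 4 8 (.L [(5,4,8,1), (3,8,9,1), (2,9,4,1)]) (.V 5 (.L [(5,4,1,2), (6,4,8,1), (2,5,1,4), (2,8,5,1)]) (.D 8 5 (.L [(5,4,1,2), (6,4,8,1),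 (3,5,1,1), (5,8,5,1)]) (.L [(4,5,6,1), (6,8,5,1), (4,8,9,2), (6,9,6,2)])) (.V 2 (.L [(2,2,10,1), (6,4,8,1), (2,8,2,1), (4,10,4,1)]) (.D 2 5 (.L [(1,6,6,3), (5,2,5,4), (3,2,10,2), (5,7,10,1), (2,9,5,8), (6,9,6,3)]) (.L [(6,2,5,2), (4,4,2,2), (6,4,8,1), (4,8,5,1)])) (.L [(2,2,5,2), (2,4,2,2), (6,4,8,1), (4,8,5,1)])))) (.D 8 9 (.L [(1,6,6,1), (5,8,9,1), (6,9,6,1)]) (.L [(4,4,8,1), (6,8,9,1), (2,9,4,1)])) (.L [(2,4,8,1), (2,8,9,1), (2,9,4,1)])))) (.V 2 (.L [(2,1,2,1), (2,2,10,1), (6,4,1,1), (4,10,4,1)]) (.D 1 2 (.L [(5,1,2,1), (3,2,10,1), (6,4,1,1), (4,10,4,1)]) (.L [(6,1,2,5), (6,4,1,2), (4,4,2,4), (5,7,1,6)])) (.L [(4,1,2,1), (6,4,1,1), (2,4,2,2)]))) (.L [(2,1,6,1), (4,6,7,1), (6,7,1,1)])) (.V 9 (.D 9 1 (.V 3 (.L [(3,1,3,1),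 (2,3,9,1), (5,9,1,1)]) (.D 10 3 (.V 5 (.L [(3,3,9,1), (2,5,10,1), (2,9,5,1), (5,10,3,1)]) (.L [(3,3,9,1), (2,5,1,2), (3,5,10,1), (5,9,1,1), (5,10,3,1)]) (.D 5 10 (.V 2 (.L [(3,2,5,1), (2,2,10,2), (5,5,10,1)]) (.D 2 5 (.L [(5,2,5,4), (3,2,10,2), (3,5,1,4), (5,5,10,1), (5,9,1,2), (3,9,5,1)]) (.L [(6,2,5,1), (4,4,2,1), (5,5,10,1), (3,10,4,1)])) (.L [(2,2,5,1), (2,4,2,1), (5,5,10,1), (3,10,4,1)])) (.L [(3,3,9,1), (6,5,10,1), (4,9,5,1), (5,10,3,1)]))) (.L [(1,3,3,3), (3,7,1,2), (5,7,10,4), (5,9,1,1), (6,10,3,3)])) (.D 1 3 (.L [(5,1,3,1), (3,7,1,1), (5,7,10,2), (3,10,3,2)]) (.L [(6,1,3,6), (5,9,1,6), (3,9,4,4), (4,9,4,2), (4,10,3,3)]))) (.L [(4,1,6,1), (6,9,1,1), (2,9,6,2)])) (.D 9 4 (.L [(3,1,6,1), (4,1,6,2), (6,4,6,3),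 (5,9,4,3)]) (.L [(4,4,1,1), (2,9,1,2), (6,9,4,1)])) (.D 9 6 (.L [(3,6,7,1), (2,7,9,1), (5,9,6,1)]) (.V 8 (.D 4 8 (.L [(5,4,8,1), (3,8,9,1), (2,9,4,1)]) (.V 2 (.L [(2,2,10,1), (6,4,8,1), (2,8,2,1), (4,10,4,1)]) (.V 5 (.L [(6,4,8,1), (2,5,10,1), (2,8,5,1), (4,10,4,1)]) (.L [(2,1,2,1), (2,2,5,1), (2,5,1,1)]) (.D 2 5 (.L [(4,1,6,2), (5,2,5,8), (3,2,10,4), (3,5,1,1), (3,7,1,1), (5,7,10,2), (2,9,5,14), (6,9,6,4)]) (.L [(6,2,5,2), (4,4,2,2), (6,4,8,1), (4,8,5,1)]))) (.L [(2,4,2,2), (6,4,8,1), (4,8,2,1)]))) (.D 8 9 (.L [(3,1,6,1), (4,1,6,2), (5,8,9,3), (6,9,6,3)]) (.L [(4,4,8,1), (6,8,9,1), (2,9,4,1)])) (.L [(2,4,8,1), (2,8,9,1), (2,9,4,1)])))) (.D 1 6 (.L [(5,1,6,2), (2,4,1,2), (6,4,6,1)]) (.V 0 (.V 3 (.L [(2,0,10,1), (2,3,0,1),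 (2,10,3,1)]) (.D 10 3 (.L [(2,0,10,1), (3,3,0,1), (5,10,3,1)]) (.L [(1,6,6,1), (4,1,3,2), (6,1,6,1), (5,7,10,3), (6,10,3,3)])) (.D 3 0 (.L [(3,0,4,1), (2,1,3,1), (5,3,0,1), (2,4,1,1)]) (.L [(2,0,10,1), (6,3,0,1), (4,10,3,1)]))) (.D 0 4 (.L [(1,6,6,3), (5,0,4,4), (3,0,10,2), (6,4,6,3), (5,7,10,1)]) (.L [(6,0,4,1), (4,1,0,1), (2,4,1,1)])) (.L [(2,0,4,1), (2,1,0,1), (2,4,1,1)])))) (.L [(6,4,6,1), (4,6,7,1), (6,7,10,1), (4,10,4,1)]))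
def t39 : Tr := (.D 2 10 (.L [(1,4,4,1), (5,2,10,1), (6,10,4,1)]) (.V 5 (.L [(2,2,5,2), (6,2,10,1), (2,5,6,2), (4,10,6,1)]) (.D 2 5 (.L [(5,2,5,2), (6,2,10,1), (3,5,6,2), (4,10,6,1)]) (.V 1 (.D 7 1 (.D 4 1 (.V 0 (.L [(4,0,4,2), (2,2,0,2), (6,2,5,1), (6,4,6,2), (2,5,10,1), (4,10,6,1)]) (.D 0 4 (.L [(5,0,4,6), (6,4,6,4), (6,10,4,1), (4,10,6,2)]) (.D 1 0 (.L [(1,4,4,1), (6,0,4,1), (5,1,0,1)]) (.L [(1,0,0,1), (6,1,0,1), (5,4,1,1)]))) (.L [(3,1,0,4), (4,2,0,2), (6,2,5,1), (5,4,1,4), (6,4,6,2), (2,5,10,1), (4,10,6,1)])) (.V 0 (.L [(4,0,4,4), (2,2,0,4), (6,2,5,2), (6,4,1,4), (5,7,1,2), (4,7,5,1)]) (.D 1 0 (.D 0 4 (.L [(5,0,4,3), (6,4,1,2), (5,7,1,1)]) (.L [(1,4,4,1), (6,0,4,1), (5,1,0,1)])) (.L [(2,0,10,2), (6,1,0,2), (4,5,6,1),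 (3,6,7,1), (5,7,1,2), (3,7,5,1), (4,7,10,1)])) (.V 3 (.V 8 (.D 8 5 (.L [(2,1,3,1), (2,3,8,1), (3,5,1,1), (5,8,5,1)]) (.L [(2,5,10,1), (6,8,5,1), (4,10,8,1)])) (.L [(4,4,8,1), (6,10,4,1), (2,10,8,2)]) (.L [(2,1,3,1), (4,3,8,1), (6,4,1,1), (2,4,8,2)])) (.D 1 3 (.L [(1,4,4,6), (3,1,0,4), (5,1,3,8), (4,2,0,2), (6,2,10,1), (2,10,3,16), (6,10,4,6)]) (.L [(1,3,3,1), (6,1,3,1), (5,7,1,1)])) (.D 5 3 (.L [(3,1,3,2), (5,5,3,1), (5,7,1,2), (3,7,5,1)]) (.L [(4,0,10,1), (2,3,0,1), (6,5,3,1), (2,5,10,2)]))))) (.L [(2,1,6,1), (4,6,7,1), (6,7,1,1)])) (.L [(4,1,2,1), (6,2,5,1), (2,5,1,1)]) (.V 0 (.L [(4,0,4,2), (2,2,0,2), (6,2,5,1), (6,4,6,2), (4,5,6,1)]) (.D 0 4 (.L [(5,0,4,6), (6,4,6,4), (6,10,4,1), (4,10,6,2)]) (.L [(6,0,4,1), (4,1,0,1),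 (2,4,1,1)])) (.L [(2,1,0,4), (4,2,0,2), (6,2,5,1), (2,4,1,4), (6,4,6,2), (4,5,6,1)])))) (.D 5 6 (.L [(5,5,6,1), (3,6,7,1), (2,7,5,1)]) (.L [(4,2,5,2), (6,2,10,1), (6,5,6,2), (4,10,6,1)]))))
def t40 : Tr := (.V 8 (.D 8 2 (.D 4 8 (.V 5 (.D 5 10 (.L [(3,2,5,1), (4,4,2,1), (5,5,10,1), (6,10,4,1)]) (.L [(2,5,6,2), (6,5,10,1), (4,10,6,1)])) (.D 8 5 (.V 1 (.D 7 1 (.V 3 (.L [(2,1,3,1), (2,3,8,1), (3,5,1,1), (5,8,5,1)]) (.D 1 3 (.L [(1,4,4,1), (5,1,3,1), (2,10,3,2), (6,10,4,1)]) (.L [(1,3,3,1), (6,1,3,1), (5,7,1,1)])) (.D 5 3 (.L [(3,1,3,2), (5,5,3,1), (5,7,1,2), (3,7,5,1)]) (.L [(3,1,3,1), (4,1,3,2), (6,5,3,3), (5,8,5,3)]))) (.L [(2,1,6,1), (4,6,7,1), (6,7,1,1)])) (.L [(2,1,2,1), (2,2,5,1), (2,5,1,1)]) (.D 5 1 (.L [(2,4,1,18),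 (6,4,6,8), (5,5,1,9), (6,10,4,2), (4,10,6,4)]) (.L [(1,1,1,1), (6,5,1,1), (5,8,5,1)]))) (.L [(6,4,6,2), (5,4,8,4), (4,5,6,1), (6,8,5,1)])) (.L [(5,4,8,1), (4,5,10,1), (3,8,5,1), (6,10,4,1)])) (.V 9 (.L [(6,4,8,1), (2,8,9,1), (4,9,4,1)]) (.D 9 4 (.L [(6,4,8,10), (5,9,4,12), (3,9,6,6), (6,10,4,4), (4,10,6,3), (4,10,8,5)]) (.D 8 9 (.L [(1,4,4,3), (6,4,8,1), (5,8,9,1), (6,9,4,1)]) (.V 5 (.L [(2,5,6,2), (2,8,5,2), (6,8,9,1), (4,9,6,1)]) (.L [(2,5,10,1), (6,8,9,1), (2,9,5,1), (4,10,8,1)]) (.D 5 6 (.L [(5,5,6,1), (3,6,7,1), (2,7,5,1)]) (.L [(6,5,6,2), (4,8,5,2), (6,8,9,1), (4,9,6,1)]))))) (.D 9 6 (.L [(3,6,7,1), (2,7,9,1), (5,9,6,1)]) (.V 5 (.D 5 10 (.L [(1,4,4,3), (5,5,10,3), (2,8,5,3), (3,8,9,2), (4,8,9,1), (6,10,4,3)])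 (.L [(2,5,6,2), (6,5,10,1), (4,10,6,1)])) (.D 8 5 (.V 1 (.D 7 1 (.V 3 (.L [(2,1,3,1), (2,3,8,1), (3,5,1,1), (5,8,5,1)]) (.D 1 3 (.L [(5,1,3,1), (3,3,8,1), (3,5,1,1), (5,8,5,1)]) (.L [(1,3,3,1), (6,1,3,1), (5,7,1,1)])) (.D 5 3 (.L [(3,1,3,2), (5,5,3,1), (5,7,1,2), (3,7,5,1)]) (.L [(3,1,3,1), (4,1,3,2), (6,5,3,3), (5,8,5,3)]))) (.L [(2,1,6,1), (4,6,7,1), (6,7,1,1)])) (.L [(2,1,2,1), (2,2,5,1), (2,5,1,1)]) (.D 5 1 (.L [(2,4,1,24), (6,4,8,10), (5,5,1,12), (3,5,6,6), (6,10,4,4), (4,10,6,3), (4,10,8,5)]) (.L [(1,1,1,1), (6,5,1,1), (5,8,5,1)]))) (.L [(4,5,6,1), (6,8,5,1), (4,8,9,2), (6,9,6,2)])) (.D 2 5 (.L [(1,4,4,1), (5,2,5,5), (2,9,5,10), (6,9,6,4), (6,10,4,1), (4,10,6,2)]) (.L [(6,2,5,2), (5,8,2,2), (4,8,5,1)])))))) (.L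 [(4,4,2,1), (6,8,2,2), (6,10,4,1), (4,10,8,2)])) (.L [(4,4,2,1), (2,8,2,2), (6,10,4,1), (2,10,8,2)]) (.D 10 8 (.L [(6,4,6,2), (2,4,8,6), (6,10,4,2), (4,10,6,1), (5,10,8,3)]) (.V 5 (.D 5 10 (.L [(3,2,5,1), (4,4,2,1), (5,5,10,1), (6,10,4,1)]) (.L [(2,5,6,2), (6,5,10,1), (4,10,6,1)])) (.V 9 (.D 9 5 (.D 8 9 (.L [(2,4,8,1), (5,8,9,1), (3,9,4,1)]) (.V 1 (.D 4 1 (.L [(5,4,1,1), (2,9,1,2), (3,9,4,1)]) (.D 7 1 (.V 3 (.L [(2,1,3,1), (4,3,8,1), (6,4,1,1), (6,8,9,1), (4,9,4,1)]) (.D 1 3 (.L [(5,1,3,1), (3,3,9,1), (6,4,1,1), (4,9,4,1)]) (.L [(1,3,3,1), (6,1,3,1), (5,7,1,1)])) (.D 5 3 (.L [(3,1,3,2), (5,5,3,1), (5,7,1,2), (3,7,5,1)]) (.L [(3,1,3,1), (4,1,3,2), (6,5,3,3), (5,9,5,3)]))) (.L [(2,1,6,1), (4,6,7,1), (6,7,1,1)]))) (.L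 [(2,1,2,1), (2,2,5,1), (2,5,1,1)]) (.D 5 1 (.L [(2,4,1,18), (6,4,6,8), (5,5,1,9), (6,10,4,2), (4,10,6,4)]) (.L [(6,5,1,2), (4,9,1,1), (3,9,4,2), (4,9,4,1), (5,9,5,2)])))) (.L [(4,5,6,1), (6,9,5,1), (2,9,6,2)])) (.D 9 4 (.L [(6,4,6,8), (5,9,4,9), (6,10,4,2), (4,10,6,4)]) (.L [(2,4,8,1), (4,8,5,1), (6,9,4,1), (2,9,5,2)])) (.L [(2,4,8,1), (2,8,9,1), (2,9,4,1)])) (.L [(4,5,10,1), (2,8,5,1), (6,10,8,1)]))))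
def t41 : Tr := (.V 2 t39 t40 (.L [(4,2,10,1), (2,4,2,1), (6,10,4,1)]))
def t42 : Tr := (.D 10 4 (.L [(6,4,6,1), (4,6,7,1), (3,7,10,1), (5,10,4,1)]) t41)
def t43 : Tr := (.D 10 6 (.L [(3,6,7,1), (2,7,10,1), (5,10,6,1)]) (.V 2 (.D 4 2 (.L [(3,2,10,1), (5,4,2,1), (2,10,4,1)]) (.V 0 (.L [(4,0,4,1), (2,2,0,1), (6,4,2,1)]) (.D 0 4 (.L [(1,2,2,1), (5,0,4,1), (6,4,2,1)]) (.D 2 0 (.L [(1,4,4,1), (6,0,4,1), (5,2,0,1)]) (.D 0 10 (.L [(1,4,4,1), (1,6,6,1), (6,0,4,1), (5,0,10,2), (6,10,6,1)]) (.V 1 (.D 7 1 (.D 1 0 (.L [(6,0,10,8), (5,1,0,9), (6,2,0,2), (4,2,10,4)]) (.L [(1,0,0,1), (6,1,0,1), (5,7,1,1)])) (.L [(2,1,2,1), (4,2,10,1), (4,6,7,1), (6,7,1,1), (6,10,6,1)])) (.V 5 (.D 7 5 (.L [(1,0,0,18), (6,2,0,15), (2,2,5,32), (4,4,1,4),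 (6,4,2,2), (3,7,1,8), (5,7,5,16)]) (.L [(4,5,10,1), (4,6,7,1), (6,7,5,1), (6,10,6,1)])) (.D 5 10 (.L [(3,1,2,2), (4,1,2,1), (4,1,6,3), (3,5,6,2), (5,5,10,4), (6,10,6,4)]) (.L [(4,2,10,1), (4,4,1,2), (6,4,2,1), (2,5,1,4), (6,5,10,2)])) (.D 5 6 (.L [(1,0,0,8), (6,2,0,8), (4,2,10,16), (4,4,1,2), (6,4,6,1), (3,5,1,4), (5,5,6,8), (6,10,6,15)]) (.V 8 (.D 10 8 (.L [(2,5,10,1), (3,8,5,1), (5,10,8,1)]) (.L [(4,2,10,1), (2,8,2,1), (6,10,8,1)])) (.D 8 5 (.L [(3,1,2,1), (4,1,2,1), (4,1,6,1), (6,5,6,2), (3,8,2,1), (5,8,5,2)]) (.L [(4,2,5,1), (6,4,2,1), (4,4,8,2), (6,8,5,2)])) (.L [(4,2,5,1), (6,4,2,1), (2,4,8,2), (2,8,5,2)])))) (.L [(6,0,4,1), (4,1,0,1), (2,4,1,1)]))))) (.V 1 (.D 4 1 (.L [(2,0,10,2), (3,1,0,2), (4,2,10,1), (5,4,1,2),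 (6,4,2,1)]) (.V 5 (.L [(2,1,2,1), (2,2,5,1), (2,5,1,1)]) (.D 2 5 (.L [(2,1,2,1), (5,2,5,1), (3,5,1,1)]) (.L [(6,2,5,1), (4,2,10,2), (4,5,6,1), (6,10,6,2)])) (.D 5 1 (.V 9 (.L [(6,4,1,2), (5,5,1,1), (4,9,4,2), (3,9,5,1)]) (.D 9 5 (.L [(2,7,5,2), (3,7,9,1), (5,9,5,1)]) (.L [(4,0,9,1), (3,1,0,1), (5,5,1,1), (6,9,5,1)])) (.L [(2,0,9,1), (3,1,0,1), (5,5,1,1), (2,9,5,1)])) (.L [(2,1,2,1), (4,2,5,1), (6,5,1,1)])))) (.D 1 0 (.V 5 (.D 7 5 (.L [(5,1,0,1), (3,2,0,2), (2,2,5,4), (3,7,1,1), (5,7,5,2)]) (.L [(4,5,10,1), (4,6,7,1), (6,7,5,1), (6,10,6,1)])) (.D 5 10 (.L [(3,1,2,2), (4,1,2,1), (4,1,6,3), (3,5,6,2), (5,5,10,4), (6,10,6,4)]) (.L [(4,2,10,1), (4,4,1,2), (6,4,2,1), (2,5,1,4), (6,5,10,2)])) (.D 5 6 (.L [(5,1,0,1), (3,2,0,2),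 (4,2,10,4), (3,5,1,1), (5,5,6,2), (6,10,6,4)]) (.V 8 (.D 10 8 (.L [(2,5,10,1), (3,8,5,1), (5,10,8,1)]) (.L [(4,2,10,1), (2,8,2,1), (6,10,8,1)])) (.D 8 5 (.L [(3,1,2,1), (4,1,2,1), (4,1,6,1), (6,5,6,2), (3,8,2,1), (5,8,5,2)]) (.L [(4,2,5,1), (6,4,2,1), (4,4,8,2), (6,8,5,2)])) (.L [(4,2,5,1), (6,4,2,1), (2,4,8,2), (2,8,5,2)])))) (.L [(2,0,10,2), (6,1,0,2), (4,2,10,1), (4,4,1,2), (6,4,2,1)])) (.L [(2,0,10,2), (2,1,0,2), (4,2,10,1), (2,4,1,2), (6,4,2,1)])))) (.D 2 10 (.L [(1,6,6,1), (5,2,10,1), (6,10,6,1)]) (.L [(6,2,10,1), (4,4,2,1), (2,10,4,1)])) (.L [(2,2,10,1), (2,4,2,1), (2,10,4,1)])))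
def t44 : Tr := (.V 10 t38 t42 t43)
def t45 : Tr := (.V 7 (.L [(6,4,6,1), (2,6,7,1), (4,7,4,1)]) t37 t44)
def t46 : Tr := (.D 4 6 t36 t45)
def tree : Tr := (.V 4 t14 t25 t46)

theorem tree_ok : chk tree (fun v => if v = 6 then 0 else 3) [] = true := by decide +kernel

theorem nohom (k : ℕ → ℕ) (x : ℕ → ℤ) (hk : ∀ v, k v < 3) (hx : ∀ v, v < 12 → 0 < x v)
    (hM : ∀ v, v < 11 → x v < x 11)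
    (hR : ∀ a b, isArc a b = true → Rel (k a) (x a) (k b) (x b) (x 11)) : False := by
  refine sound (fun v => (k v + 3 - k 6) % 3) x (fun v => Nat.mod_lt _ (by norm_num)) hx hM ?_
    tree _ [] ?_ (by simp) tree_ok
  · intro a b h
    have r := hR a b h
    have := hk a
    have := hk b
    have := hk 6
    unfold Rel at r ⊢
    omega
  · intro v hv
    split_ifs at hv ⊢ with e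
    · subst e; omega
    · omega

end Pool.Agent.H.MP_b466f1_co
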