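import Mathlib

namespace Pool.Agent.H.MP_b466f1_co

/-- A digraph is an arc relation; it is oriented if loopless and without digons. -/
def Oriented {V : Type} (A : V → V → Prop) : Prop :=
  (∀ v, ¬ A v v) ∧ ∀ u v, A u v → ¬ A v u

/-- `G` contains a (not necessarily induced) copy of `H`. -/
def Contains {W V : Type} (G : W → W → Prop) (H : V → V → Prop) : Prop :=
  ∃ f : V → W, Function.Injective f ∧ ∀ u v, H u v → G (f u) (f v)

/-- Out-degree. -/
noncomputable def outDeg {W : Type} (G : W → W → Prop) (v : W) : ℕ := {w | G v w}.ncard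

/-- In-degree. -/
noncomputable def inDeg {W : Type} (G : W → W → Prop) (v : W) : ℕ := {w | G w v}.ncard

/-- Semi-regular near-tournament: an oriented graph on `n` vertices whose minimum semi-degree
(the least in-degree or out-degree) equals `(n-1)/2` rounded down. -/
def SemiRegular {W : Type} [Fintype W] (G : W → W → Prop) : Prop :=
  Oriented G ∧ IsLeast {d | ∃ v, d = outDeg G v ∨ d = inDeg G v} ((Fintype.card W - 1) / 2)

/-- `H` lies in every large enough semi-regular near-tournament. -/
def Turanable {V : Type} (H : V → V → Prop) : Prop :=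
  ∃ n₀ : ℕ, ∀ (W : Type) [Fintype W] (G : W → W → Prop),
    n₀ ≤ Fintype.card W → SemiRegular G → Contains G H

/-- The `l`-th power of the consistently oriented `m`-cycle: arcs `i → i + j`, `1 ≤ j ≤ l`. -/
def CycPow (m l : ℕ) (x y : ZMod m) : Prop :=
  ∃ j : ℕ, 1 ≤ j ∧ j ≤ l ∧ y = x + (j : ZMod m)

/-- The tournament `F_r` on `[3]^r`: at the first index where `u, v` differ, `v i = u i + 1`. -/
def F (r : ℕ) (u v : Fin r → Fin 3) : Prop :=
  ∃ i : Fin r, (∀ j, j < i → u j = v j) ∧ v i = u i + 1

end Pool.Agent.H.MP_b466f1_co
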