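import Pool.Agent.H.MP_b466f1_co.B
import Pool.Agent.H.MP_b466f1_co.D

namespace Pool.Agent.H.MP_b466f1_co

def T (N : ℕ) (p q : Fin 3 × Fin N) : Prop :=
  Rel p.1.val (2 * (p.2.val : ℤ) + 1) q.1.val (2 * (q.2.val : ℤ) + 1) (2 * (N : ℤ))

lemma T_or (N : ℕ) : Oriented (T N) := by
  constructor
  · intro v h
    have := v.1.2
    unfold T Rel at h
    omega
  · intro u v h h'
    have := v.1.2
    have := u.1.2
    have := v.2.2
    have := u.2.2
    unfold T Rel at h h'
    omega

lemma T_tot (N : ℕ) (u v : Fin 3 × Fin N) (h : u ≠ v) : T N u v ∨ T N v u := by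
  have h1 : u.1.val ≠ v.1.val ∨ u.2.val ≠ v.2.val := by
    by_contra hc
    push Not at hc
    exact h (Prod.ext (Fin.ext hc.1) (Fin.ext hc.2))
  have := v.1.2
  have := u.1.2
  unfold T Rel
  omega

lemma card_fin (N : ℕ) (P : ℕ → Prop) [DecidablePred P] (S : Finset ℕ)
    (h : ∀ t, t ∈ S ↔ t < N ∧ P t) :
    (Finset.univ.filter fun t : Fin N => P t.val).card = S.card := by
  refine Finset.card_bij (fun t _ => t.val) ?_ ?_ ?_
  · intro t ht
    exact (h _).2 ⟨t.2, by simpa using ht⟩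
  · intro a _ b _ e
    exact Fin.ext e
  · intro t ht
    exact ⟨⟨t, ((h t).1 ht).1⟩, by simpa using ((h t).1 ht).2, rfl⟩

lemma T_out (m : ℕ) (v : Fin 3 × Fin (2 * m + 1)) : outDeg (T (2 * m + 1)) v = 3 * m + 1 := by
  classical
  obtain ⟨i, s⟩ := v
  have hs := s.2
  have e0 : outDeg (T (2 * m + 1)) (i, s) =
      ∑ j : Fin 3, (Finset.univ.filter fun t : Fin (2 * m + 1) =>
        T (2 * m + 1) (i, s) (j, t)).card := by
    unfold outDeg
    rw [Set.ncard_eq_toFinset_card', Set.toFinset_ofPred]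
    simp only [Finset.card_filter]
    rw [Fintype.sum_prod_type]
  have c1 : (Finset.univ.filter fun t : Fin (2 * m + 1) =>
      T (2 * m + 1) (i, s) (i, t)).card = (Finset.Ico (s.val + 1) (2 * m + 1)).card := by
    refine card_fin _ (fun t => Rel i.val (2 * (s.val : ℤ) + 1) i.val (2 * (t : ℤ) + 1)
      (2 * ((2 * m + 1 : ℕ) : ℤ))) _ ?_
    intro t
    have := i.2
    simp only [Finset.mem_Ico, Rel, true_and]
    constructor <;> intro h <;> omega
  have c2 : (Finset.univ.filter fun t : Fin (2 * m + 1) =>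
      T (2 * m + 1) (i, s) (i + 1, t)).card =
      (Finset.range ((2 * m + 1 - s.val) / 2) ∪ Finset.Ico (4 * m + 1 - 2 * s.val) (2 * m + 1)).card := by
    refine card_fin _ (fun t => Rel i.val (2 * (s.val : ℤ) + 1) (i + 1).val (2 * (t : ℤ) + 1)
      (2 * ((2 * m + 1 : ℕ) : ℤ))) _ ?_
    intro t
    have := i.2
    have e : (i + 1).val = (i.val + 1) % 3 := by simp [Fin.val_add]
    simp only [Finset.mem_union, Finset.mem_range, Finset.mem_Ico, Rel, e, true_and]
    constructor <;> intro h <;> omega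
  have c3 : (Finset.univ.filter fun t : Fin (2 * m + 1) =>
      T (2 * m + 1) (i, s) (i + 2, t)).card =
      (Finset.Ico (2 * m - 2 * s.val) (2 * m + 1 - (s.val + 1) / 2)).card := by
    refine card_fin _ (fun t => Rel i.val (2 * (s.val : ℤ) + 1) (i + 2).val (2 * (t : ℤ) + 1)
      (2 * ((2 * m + 1 : ℕ) : ℤ))) _ ?_
    intro t
    have := i.2
    have e : (i + 2).val = (i.val + 2) % 3 := by simp [Fin.val_add]
    simp only [Finset.mem_Ico, Rel, e]
    omega
  have dj : Disjoint (Finset.range ((2 * m + 1 - s.val) / 2))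
      (Finset.Ico (4 * m + 1 - 2 * s.val) (2 * m + 1)) := by
    rw [Finset.disjoint_left]
    intro t h1 h2
    simp only [Finset.mem_range, Finset.mem_Ico] at h1 h2
    omega
  rw [Finset.card_union_of_disjoint dj] at c2
  simp only [Nat.card_Ico, Finset.card_range] at c1 c2 c3
  have e1 : ∀ g : Fin 3 → ℕ, ∑ j, g j = g i + g (i + 1) + g (i + 2) := by
    intro g
    fin_cases i <;> simp [Fin.sum_univ_three] <;> omega
  rw [e0, e1, c1, c2, c3]
  omega

lemma T_in (m : ℕ) (v : Fin 3 × Fin (2 * m + 1)) : inDeg (T (2 * m + 1)) v = 3 * m + 1 := by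
  have h := T_out m v
  unfold outDeg at h
  unfold inDeg
  have e : {w | T (2 * m + 1) w v} = (insert v {w | T (2 * m + 1) v w})ᶜ := by
    ext w
    simp only [Set.mem_compl_iff, Set.mem_insert_iff, Set.mem_ofPred_eq, not_or]
    constructor
    · intro hw
      exact ⟨fun e => (T_or _).1 v (e ▸ hw), (T_or _).2 _ _ hw⟩
    · intro hw
      exact (T_tot _ w v hw.1).resolve_right hw.2
  have e2 := Set.ncard_add_ncard_compl (insert v {w | T (2 * m + 1) v w})
  rw [Set.ncard_insert_of_notMem (by simpa using (T_or _).1 v), h] at e2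
  rw [e]
  simp only [Nat.card_eq_fintype_card, Fintype.card_prod, Fintype.card_fin] at e2
  omega

lemma T_semi (m : ℕ) : SemiRegular (T (2 * m + 1)) := by
  refine ⟨T_or _, ?_⟩
  have e : (Fintype.card (Fin 3 × Fin (2 * m + 1)) - 1) / 2 = 3 * m + 1 := by
    simp only [Fintype.card_prod, Fintype.card_fin]; omega
  rw [e]
  constructor
  · exact ⟨(0, 0), Or.inl (T_out m _).symm⟩
  · rintro d ⟨v, h | h⟩
    · rw [h, T_out]
    · rw [h, T_in]

def HH (a b : Fin 11) : Prop := isArc a.val b.val = true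

instance : DecidableRel HH := fun _ _ => by unfold HH; infer_instance

lemma H_or : Oriented HH := by
  unfold Oriented; decide +kernel

lemma not_tur : ¬ Turanable HH := by
  rintro ⟨n₀, h⟩
  obtain ⟨f, -, hf⟩ := h (Fin 3 × Fin (2 * n₀ + 1)) (T _)
    (by simp only [Fintype.card_prod, Fintype.card_fin]; omega) (T_semi n₀)
  refine nohom (fun v => if hv : v < 11 then (f ⟨v, hv⟩).1.val else 0)
    (fun v => if hv : v < 11 then 2 * ((f ⟨v, hv⟩).2.val : ℤ) + 1 else 2 * ((2 * n₀ + 1 : ℕ) : ℤ))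
    ?_ ?_ ?_ ?_
  · intro v
    split_ifs
    · exact Fin.is_lt _
    · norm_num
  · intro v _
    split_ifs <;> positivity
  · intro v hv
    have := (f ⟨v, hv⟩).2.2
    simp only [hv, dite_true, lt_irrefl, dite_false]
    omega
  · intro a b hab
    have hl : ∀ p ∈ arcs, p.1 < 11 ∧ p.2 < 11 := by decide
    have := hl (a, b) (by simpa [isArc] using hab)
    simp only [this.1, this.2, dite_true, lt_irrefl, dite_false]
    exact hf ⟨a, this.1⟩ ⟨b, this.2⟩ hab

def cpos : Fin 11 → ZMod 11 := ![2, 8, 1, 10, 7, 5, 9, 3, 0, 4, 6]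

def fpos : Fin 11 → Fin 3 → Fin 3 := ![![0,1,2], ![0,0,2], ![0,0,0], ![0,1,1], ![0,2,1],
  ![0,0,1], ![1,1,2], ![2,0,0], ![0,2,2], ![0,2,0], ![0,1,0]]

lemma H_cyc : Contains (CycPow (2 * 5 + 1) 5) HH := by
  refine ⟨cpos, by unfold Function.Injective; decide +kernel, ?_⟩
  have : ∀ u v, HH u v → ∃ j : Fin 6, 1 ≤ j.val ∧ cpos v = cpos u + ((j.val : ℕ) : ZMod 11) := by
    decide +kernel
  intro u v h
  obtain ⟨j, h1, h2⟩ := this u v h
  exact ⟨j.val, h1, by omega, h2⟩

lemma H_F : Contains (F 3) HH := by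
  refine ⟨fpos, by unfold Function.Injective; decide +kernel, ?_⟩
  unfold F
  decide +kernel

end Pool.Agent.H.MP_b466f1_co
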